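import Mathlib

/-!
# Normed spaces that are not homeomorphic to inner product spaces: definitions
-/

open Set Topology Filter

namespace NSp

/-- The Banach space `ℓ¹`. -/
abbrev L1 : Type := lp (fun _ : ℕ => ℝ) 1

/-- `E` is generic: for every continuous family (over the Cantor set) of triples of vectors which
are linearly independent altogether, some member has its first two vectors in `E` and the third one
outside `E`. -/
def Gen {B : Type*} [NormedAddCommGroup B] [NormedSpace ℝ B] (E : Submodule ℝ B) : Prop :=
  ∀ φ : (ℕ → Bool) → Fin 3 → B, Continuous φ →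
    LinearIndependent ℝ (fun q : (ℕ → Bool) × Fin 3 => φ q.1 q.2) →
    ∃ p, φ p 0 ∈ E ∧ φ p 1 ∈ E ∧ φ p 2 ∉ E

/-- Every continuous binary operation on `E` is locally (on a dense open set) given by linear
combinations of its two arguments, up to a finite dimensional error. -/
def LocSpan (E : Type*) [NormedAddCommGroup E] [NormedSpace ℝ E] : Prop :=
  ∀ m : E × E → E, Continuous m → ∀ N : Set (E × E), IsOpen N → N.Nonempty →
    ∃ O : Set (E × E), O ⊆ N ∧ IsOpen O ∧ O.Nonempty ∧ ∃ L : Submodule ℝ E,
      FiniteDimensional ℝ L ∧ ∀ q ∈ O, m q ∈ L ⊔ Submodule.span ℝ {q.1, q.2}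

/-- three vectors are linearly independent modulo the subspace `L` -/
def Ind {E : Type*} [AddCommGroup E] [Module ℝ E] (L : Submodule ℝ E) (x y z : E) : Prop :=
  ∀ a b c : ℝ, a • x + b • y + c • z ∈ L → a = 0 ∧ b = 0 ∧ c = 0

/-- three vectors are linearly independent -/
def Ind3 {E : Type*} [AddCommGroup E] [Module ℝ E] (x y z : E) : Prop :=
  ∀ a b c : ℝ, a • x + b • y + c • z = 0 → a = 0 ∧ b = 0 ∧ c = 0

end NSp
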