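import Pool.Agent.Helper97.NS.Defs

open Set Topology Filter

namespace NSp

theorem S_surj {E F : Type*} [NormedAddCommGroup E] [NormedSpace ℝ E]
    [NormedAddCommGroup F] [NormedSpace ℝ F] (f : F ≃ₜ E) (L : Submodule ℝ E) (u₀ : F) (r : ℝ)
    (hr : 0 < r) (ρ : F → ℝ) (S : F →ₗ[ℝ] (E ⧸ L))
    (h : ∀ ε, ‖ε‖ < r → L.mkQ (f (u₀ + ε)) = ρ ε • S ε) (y : E) : ∃ v, S v = L.mkQ y := by
  have hD : (LinearMap.range S).comap L.mkQ = ⊤ := by
    apply Submodule.eq_top_of_nonempty_interior'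
    refine ⟨f u₀, mem_interior.2 ⟨f '' Metric.ball u₀ r, ?_, f.isOpenMap _ Metric.isOpen_ball,
      ⟨u₀, Metric.mem_ball_self hr, rfl⟩⟩⟩
    rintro _ ⟨u, hu, rfl⟩
    have hu' : ‖u - u₀‖ < r := by rwa [← dist_eq_norm]
    have h1 := h (u - u₀) hu'
    rw [add_sub_cancel] at h1
    show L.mkQ (f u) ∈ LinearMap.range S
    rw [h1]
    exact Submodule.smul_mem _ _ ⟨_, rfl⟩
  have hy : y ∈ (LinearMap.range S).comap L.mkQ := by rw [hD]; trivial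
  obtain ⟨v, hv⟩ := hy
  exact ⟨v, hv⟩

end NSp
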