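import Pool.Agent.Helper97.NS.Defs

open Set Topology Filter

namespace NSp

theorem coeff_cont_aux {Q : Type*} [NormedAddCommGroup Q] [NormedSpace ℝ Q] (v c : Q)
    (hind : ∀ a b : ℝ, a • v + b • c = 0 → a = 0 ∧ b = 0) :
    ∃ ξ : Q →L[ℝ] ℝ, ξ v = 1 ∧ ξ c = 0 := by
  let S : Submodule ℝ Q := Submodule.span ℝ {c}
  haveI hS : IsClosed (S : Set Q) := Submodule.closed_of_finiteDimensional S
  have hv : S.mkQ v ≠ 0 := by
    intro h0
    rw [Submodule.mkQ_apply, Submodule.Quotient.mk_eq_zero] at h0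
    obtain ⟨b, hb⟩ := Submodule.mem_span_singleton.1 h0
    have := (hind 1 (-b) (by rw [one_smul, neg_smul, hb]; abel)).1
    exact one_ne_zero this
  obtain ⟨f, hf⟩ := SeparatingDual.exists_eq_one (R := ℝ) (V := Q ⧸ S) hv
  refine ⟨f.comp S.mkQL, ?_, ?_⟩
  · exact hf
  · show f (S.mkQ c) = 0
    have : S.mkQ c = 0 := by
      rw [Submodule.mkQ_apply, Submodule.Quotient.mk_eq_zero]
      exact Submodule.mem_span_singleton_self c
    rw [this, map_zero]

theorem coeff_cont {F Q : Type*} [TopologicalSpace F] [NormedAddCommGroup Q] [NormedSpace ℝ Q]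
    (p q : F → Q) (c : Q) (u₀ : F) (lam k : F → ℝ) (hp : ContinuousAt p u₀)
    (hq : ContinuousAt q u₀) (hind : ∀ a b : ℝ, a • p u₀ + b • c = 0 → a = 0 ∧ b = 0)
    (h : ∀ᶠ u in 𝓝 u₀, q u = k u • (lam u • p u + c)) (hk : k u₀ ≠ 0) :
    ContinuousAt lam u₀ := by
  obtain ⟨ξ, x1, x2⟩ := coeff_cont_aux (p u₀) c hind
  obtain ⟨η, y1, y2⟩ := coeff_cont_aux c (p u₀) (fun a b hab => by
    have := hind b a (by rw [add_comm]; exact hab)
    exact ⟨this.2, this.1⟩)
  have hξp : ContinuousAt (fun u => ξ (p u)) u₀ := ξ.continuous.continuousAt.comp hp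
  have hξq : ContinuousAt (fun u => ξ (q u)) u₀ := ξ.continuous.continuousAt.comp hq
  have hηp : ContinuousAt (fun u => η (p u)) u₀ := η.continuous.continuousAt.comp hp
  have hηq : ContinuousAt (fun u => η (q u)) u₀ := η.continuous.continuousAt.comp hq
  have hA : ContinuousAt (fun u => ξ (q u) / ξ (p u)) u₀ :=
    hξq.div hξp (by rw [x1]; exact one_ne_zero)
  have hK : ContinuousAt (fun u => η (q u) - ξ (q u) / ξ (p u) * η (p u)) u₀ :=
    hηq.sub (hA.mul hηp)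
  have hne : ∀ᶠ u in 𝓝 u₀, ξ (p u) ≠ 0 :=
    hξp.eventually_ne (by show ξ (p u₀) ≠ 0; rw [x1]; exact one_ne_zero)
  have key : ∀ᶠ u in 𝓝 u₀, ξ (q u) / ξ (p u) = k u * lam u ∧
      η (q u) - ξ (q u) / ξ (p u) * η (p u) = k u := by
    filter_upwards [h, hne] with u hu hn
    have e1 : ξ (q u) = k u * (lam u * ξ (p u)) := by
      rw [hu, map_smul, map_add, map_smul, x2, smul_eq_mul, smul_eq_mul, add_zero]
    have e2 : η (q u) = k u * (lam u * η (p u) + 1) := by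
      rw [hu, map_smul, map_add, map_smul, y1, smul_eq_mul, smul_eq_mul]
    have e3 : ξ (q u) / ξ (p u) = k u * lam u := by
      rw [e1]
      field_simp
    refine ⟨e3, ?_⟩
    rw [e3, e2]
    ring
  have h0 := key.self_of_nhds
  have hk0 : η (q u₀) - ξ (q u₀) / ξ (p u₀) * η (p u₀) ≠ 0 := by
    rw [h0.2]; exact hk
  have hL : ContinuousAt (fun u => (ξ (q u) / ξ (p u)) /
      (η (q u) - ξ (q u) / ξ (p u) * η (p u))) u₀ := hA.div hK hk0
  have hkn : ∀ᶠ u in 𝓝 u₀, η (q u) - ξ (q u) / ξ (p u) * η (p u) ≠ 0 := hK.eventually_ne hk0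
  refine hL.congr ?_
  filter_upwards [key, hkn] with u hu hn
  rw [hu.2] at hn
  rw [hu.2, hu.1]
  field_simp

end NSp
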