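import Pool.Agent.Helper97.NS.Defs

open Set Topology Filter

namespace NSp

theorem exact_add_uniq {Q : Type*} [AddCommGroup Q] [Module ℝ Q] {x y z : Q} (h : Ind3 x y z)
    {a b c a' b' c' : ℝ} (e : a • x + b • y + c • z = a' • x + b' • y + c' • z) :
    a = a' ∧ b = b' ∧ c = c' := by
  obtain ⟨h1, h2, h3⟩ := h (a - a') (b - b') (c - c') (by
    linear_combination (norm := module) e)
  exact ⟨sub_eq_zero.1 h1, sub_eq_zero.1 h2, sub_eq_zero.1 h3⟩

/-- the basic computation for one pair -/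
theorem exact_add_pair {Q : Type*} [AddCommGroup Q] [Module ℝ Q] (gu gv gw guv gvw guw s : Q)
    (h1 : guv ∈ Submodule.span ℝ {gu, gv}) (h2 : gvw ∈ Submodule.span ℝ {gv, gw})
    (h3 : guw ∈ Submodule.span ℝ {gu, gw}) (h4 : s ∈ Submodule.span ℝ {guv, gw})
    (h5 : s ∈ Submodule.span ℝ {gu, gvw}) (h6 : s ∈ Submodule.span ℝ {gv, guw})
    (i0 : Ind3 gu gv gw) (i1 : Ind3 s gv gw) (i2 : Ind3 gu s gw) (i3 : Ind3 gu gv s) :
    ∃ a b a' b' a'' b'' p q q' q'' : ℝ, guv = a • gu + b • gv ∧ gvw = a' • gv + b' • gw ∧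
      guw = a'' • gu + b'' • gw ∧ s = (p * a) • gu + (p * b) • gv + q • gw ∧
      p * a = q'' * a'' ∧ p * b = q' * a' ∧ q = q' * b' ∧ q = q'' * b'' ∧
      p * a ≠ 0 ∧ p * b ≠ 0 ∧ q ≠ 0 := by
  obtain ⟨a, b, e1⟩ := Submodule.mem_span_pair.1 h1
  obtain ⟨a', b', e2⟩ := Submodule.mem_span_pair.1 h2
  obtain ⟨a'', b'', e3⟩ := Submodule.mem_span_pair.1 h3
  obtain ⟨p, q, e4⟩ := Submodule.mem_span_pair.1 h4
  obtain ⟨p', q', e5⟩ := Submodule.mem_span_pair.1 h5
  obtain ⟨p'', q'', e6⟩ := Submodule.mem_span_pair.1 h6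
  have s4 : s = (p * a) • gu + (p * b) • gv + q • gw := by
    rw [← e4, ← e1]; module
  have s5 : s = p' • gu + (q' * a') • gv + (q' * b') • gw := by
    rw [← e5, ← e2]; module
  have s6 : s = (q'' * a'') • gu + p'' • gv + (q'' * b'') • gw := by
    rw [← e6, ← e3]; module
  obtain ⟨u1, u2, u3⟩ := exact_add_uniq i0 (s4.symm.trans s5)
  obtain ⟨w1, w2, w3⟩ := exact_add_uniq i0 (s4.symm.trans s6)
  refine ⟨a, b, a', b', a'', b'', p, q, q', q'', e1.symm, e2.symm, e3.symm, s4, w1, u2, u3, w3,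
    ?_, ?_, ?_⟩
  · intro h
    have := (i1 1 (-(p * b)) (-q) (by
      conv_lhs => rw [s4]
      rw [h]; module)).1
    exact one_ne_zero this
  · intro h
    have := (i2 (-(p * a)) 1 (-q) (by
      conv_lhs => rw [s4]
      rw [h]; module)).2.1
    exact one_ne_zero this
  · intro h
    have := (i3 (-(p * a)) (-(p * b)) 1 (by
      conv_lhs => rw [s4]
      rw [h]; module)).2.2
    exact one_ne_zero this

theorem exact_add {F Q : Type*} [AddCommGroup F] [AddCommGroup Q] [Module ℝ Q] (g : F → Q)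
    (A B : Set F) (w : F) (hA : A.Nonempty) (hB : B.Nonempty)
    (H : ∀ u ∈ A, ∀ v ∈ B,
      g (u + v) ∈ Submodule.span ℝ {g u, g v} ∧
      g (v + w) ∈ Submodule.span ℝ {g v, g w} ∧
      g (u + w) ∈ Submodule.span ℝ {g u, g w} ∧
      g (u + v + w) ∈ Submodule.span ℝ {g (u + v), g w} ∧
      g (u + v + w) ∈ Submodule.span ℝ {g u, g (v + w)} ∧
      g (u + v + w) ∈ Submodule.span ℝ {g v, g (u + w)} ∧
      Ind3 (g u) (g v) (g w) ∧ Ind3 (g (u + v + w)) (g v) (g w) ∧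
      Ind3 (g u) (g (u + v + w)) (g w) ∧ Ind3 (g u) (g v) (g (u + v + w))) :
    ∃ lam mu k : F → ℝ,
      (∀ u ∈ A, lam u ≠ 0 ∧ k u ≠ 0 ∧ g (u + w) = k u • (lam u • g u + g w)) ∧
      ∀ u ∈ A, ∀ v ∈ B, ∀ u' ∈ A, ∀ v' ∈ B, u + v = u' + v' →
        lam u • g u + mu v • g v = lam u' • g u' + mu v' • g v' := by
  obtain ⟨u₀, hu₀⟩ := hA
  obtain ⟨v₀, hv₀⟩ := hB
  have HA : ∀ u, ∃ l k : ℝ, u ∈ A → l ≠ 0 ∧ k ≠ 0 ∧ g (u + w) = k • (l • g u + g w) := by
    intro u
    by_cases hu : u ∈ A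
    · obtain ⟨h1, h2, h3, h4, h5, h6, i0, i1, i2, i3⟩ := H u hu v₀ hv₀
      obtain ⟨a, b, a', b', a'', b'', p, q, q', q'', e1, e2, e3, e4, e5, e6, e7, e8, n1, n2, n3⟩ :=
        exact_add_pair _ _ _ _ _ _ _ h1 h2 h3 h4 h5 h6 i0 i1 i2 i3
      have hb : b'' ≠ 0 := by
        rintro rfl
        exact n3 (by rw [e8, mul_zero])
      have ha : a'' ≠ 0 := by
        rintro rfl
        exact n1 (by rw [e5, mul_zero])
      refine ⟨a'' / b'', b'', fun _ => ⟨div_ne_zero ha hb, hb, ?_⟩⟩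
      rw [e3, smul_add, smul_smul, mul_div_cancel₀ _ hb]
    · exact ⟨0, 0, fun h => absurd h hu⟩
  have HB : ∀ v, ∃ m k : ℝ, v ∈ B → m ≠ 0 ∧ k ≠ 0 ∧ g (v + w) = k • (m • g v + g w) := by
    intro v
    by_cases hv : v ∈ B
    · obtain ⟨h1, h2, h3, h4, h5, h6, i0, i1, i2, i3⟩ := H u₀ hu₀ v hv
      obtain ⟨a, b, a', b', a'', b'', p, q, q', q'', e1, e2, e3, e4, e5, e6, e7, e8, n1, n2, n3⟩ :=
        exact_add_pair _ _ _ _ _ _ _ h1 h2 h3 h4 h5 h6 i0 i1 i2 i3
      have hb : b' ≠ 0 := by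
        rintro rfl
        exact n3 (by rw [e7, mul_zero])
      have ha : a' ≠ 0 := by
        rintro rfl
        exact n2 (by rw [e6, mul_zero])
      refine ⟨a' / b', b', fun _ => ⟨div_ne_zero ha hb, hb, ?_⟩⟩
      rw [e2, smul_add, smul_smul, mul_div_cancel₀ _ hb]
    · exact ⟨0, 0, fun h => absurd h hv⟩
  choose lam k hA' using HA
  choose mu k' hB' using HB
  refine ⟨lam, mu, k, fun u hu => hA' u hu, ?_⟩
  have key : ∀ u ∈ A, ∀ v ∈ B, ∃ Ga κ : ℝ, Ga ≠ 0 ∧ κ ≠ 0 ∧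
      g (u + v + w) = Ga • ((lam u • g u + mu v • g v) + g w) ∧
      g (u + v) = κ • (lam u • g u + mu v • g v) := by
    intro u hu v hv
    obtain ⟨h1, h2, h3, h4, h5, h6, i0, i1, i2, i3⟩ := H u hu v hv
    obtain ⟨a, b, a', b', a'', b'', p, q, q', q'', e1, e2, e3, e4, e5, e6, e7, e8, n1, n2, n3⟩ :=
      exact_add_pair _ _ _ _ _ _ _ h1 h2 h3 h4 h5 h6 i0 i1 i2 i3
    obtain ⟨l1, l2, l3⟩ := hA' u hu
    obtain ⟨m1, m2, m3⟩ := hB' v hv
    -- compare the two expressions of `g (u + w)` and of `g (v + w)`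
    have c1 : (k u * lam u) • g u + (0 : ℝ) • g v + (k u) • g w =
        a'' • g u + (0 : ℝ) • g v + b'' • g w := by
      have : k u • (lam u • g u + g w) = a'' • g u + b'' • g w := l3.symm.trans e3
      linear_combination (norm := module) this
    have c2 : (0 : ℝ) • g u + (k' v * mu v) • g v + (k' v) • g w =
        (0 : ℝ) • g u + a' • g v + b' • g w := by
      have : k' v • (mu v • g v + g w) = a' • g v + b' • g w := m3.symm.trans e2
      linear_combination (norm := module) this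
    obtain ⟨d1, -, d2⟩ := exact_add_uniq i0 c1
    obtain ⟨-, d3, d4⟩ := exact_add_uniq i0 c2
    have f1 : p * a = q * lam u := by
      rw [e5, e8, ← d1, ← d2]; ring
    have f2 : p * b = q * mu v := by
      rw [e6, e7, ← d3, ← d4]; ring
    have hp : p ≠ 0 := by
      rintro rfl
      exact n1 (by rw [zero_mul])
    refine ⟨q, q / p, n3, div_ne_zero n3 hp, ?_, ?_⟩
    · rw [e4, f1, f2]; module
    · have g1 : a = q / p * lam u := by
        field_simp
        linarith [f1, mul_comm p a]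
      have g2 : b = q / p * mu v := by
        field_simp
        linarith [f2, mul_comm p b]
      rw [e1, g1, g2]; module
  intro u hu v hv u' hu' v' hv' huv
  obtain ⟨Ga, κ, n1, n2, r1, r2⟩ := key u hu v hv
  obtain ⟨Ga', κ', n1', n2', r1', r2'⟩ := key u' hu' v' hv'
  set X := lam u • g u + mu v • g v with hX
  set X' := lam u' • g u' + mu v' • g v' with hX'
  have s1 : κ • X = κ' • X' := by rw [← r2, ← r2', huv]
  have s2 : Ga • (X + g w) = Ga' • (X' + g w) := by rw [← r1, ← r1', huv]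
  have s3 : X' = (κ / κ') • X := by
    rw [div_eq_inv_mul, mul_smul, s1, smul_smul, inv_mul_cancel₀ n2', one_smul]
  obtain ⟨-, -, -, -, -, -, i0, -, -, -⟩ := H u hu v hv
  have s4 : ((Ga - Ga' * (κ / κ')) * lam u) • g u + ((Ga - Ga' * (κ / κ')) * mu v) • g v +
      (Ga - Ga') • g w = 0 := by
    have s5 : Ga • (X + g w) - Ga' • ((κ / κ') • X + g w) = 0 := by
      rw [← s3, s2, sub_self]
    rw [hX] at s5
    linear_combination (norm := module) s5
  obtain ⟨t1, -, t3⟩ := i0 _ _ _ s4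
  have l1 := (hA' u hu).1
  have t4 : Ga = Ga' := sub_eq_zero.1 t3
  have t5 : Ga - Ga' * (κ / κ') = 0 := by
    rcases mul_eq_zero.1 t1 with h | h
    · exact h
    · exact absurd h l1
  have t6 : κ / κ' = 1 := by
    rw [← t4] at t5
    have : Ga * (1 - κ / κ') = 0 := by linear_combination t5
    rcases mul_eq_zero.1 this with h | h
    · exact absurd h n1
    · linarith
  rw [s3, t6, one_smul]

end NSp
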