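import Pool.Agent.Helper97.NS.Defs

open Set Topology Filter

namespace NSp

theorem extend_additive {F Q : Type*} [NormedAddCommGroup F] [NormedSpace ℝ F]
    [NormedAddCommGroup Q] [NormedSpace ℝ Q] (S : F → Q) (r : ℝ) (hr : 0 < r)
    (hS : ContinuousAt S 0) (h : ∀ ε δ, ‖ε‖ < r → ‖δ‖ < r → S (ε + δ) = S ε + S δ) :
    ∃ T : F →L[ℝ] Q, ∀ ε, ‖ε‖ < r → T ε = S ε := by
  classical
  let A : ℕ → F → Q := fun n x => (2 : ℝ) ^ n • S (((2 : ℝ) ^ n)⁻¹ • x)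
  have hnorm : ∀ (n : ℕ) (x : F), ‖((2 : ℝ) ^ n)⁻¹ • x‖ = ((2 : ℝ) ^ n)⁻¹ * ‖x‖ := by
    intro n x
    rw [norm_smul, Real.norm_of_nonneg (by positivity)]
  have hlt : ∀ (n : ℕ) (x : F), ‖x‖ < 2 ^ n * r → ‖((2 : ℝ) ^ n)⁻¹ • x‖ < r := by
    intro n x hx
    rw [hnorm, inv_mul_lt_iff₀ (by positivity)]
    exact hx
  have hstep : ∀ (n : ℕ) (x : F), ‖x‖ < 2 ^ n * r → A (n + 1) x = A n x := by
    intro n x hx
    have h0 : ‖x‖ < 2 ^ (n + 1) * r := by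
      refine hx.trans_le ?_
      have : (0 : ℝ) ≤ 2 ^ n * r := by positivity
      rw [pow_succ]
      linarith
    have h1 := hlt (n + 1) x h0
    have h2 := h _ _ h1 h1
    have h3 : (((2 : ℝ) ^ (n + 1))⁻¹ • x + ((2 : ℝ) ^ (n + 1))⁻¹ • x) = ((2 : ℝ) ^ n)⁻¹ • x := by
      rw [← add_smul]
      congr 1
      rw [pow_succ]
      field_simp
      norm_num
    rw [h3] at h2
    show (2 : ℝ) ^ (n + 1) • S (((2 : ℝ) ^ (n + 1))⁻¹ • x) = (2 : ℝ) ^ n • S (((2 : ℝ) ^ n)⁻¹ • x)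
    rw [h2, ← two_smul ℝ (S (((2 : ℝ) ^ (n + 1))⁻¹ • x)), smul_smul, pow_succ]
  have hmono : ∀ (n k : ℕ) (x : F), ‖x‖ < 2 ^ n * r → A (n + k) x = A n x := by
    intro n k x hx
    induction k with
    | zero => rfl
    | succ k ih =>
      rw [← add_assoc, hstep (n + k) x ?_, ih]
      refine hx.trans_le ?_
      have : (2 : ℝ) ^ n ≤ 2 ^ (n + k) := pow_le_pow_right₀ (by norm_num) (by omega)
      exact mul_le_mul_of_nonneg_right this hr.le
  have hex : ∀ t : ℝ, ∃ n : ℕ, t < 2 ^ n * r := by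
    intro t
    obtain ⟨n, hn⟩ := pow_unbounded_of_one_lt (t / r) (by norm_num : (1 : ℝ) < 2)
    exact ⟨n, by rwa [div_lt_iff₀ hr] at hn⟩
  choose N hN using fun x : F => hex ‖x‖
  let T : F → Q := fun x => A (N x) x
  have hT : ∀ (x : F) (n : ℕ), ‖x‖ < 2 ^ n * r → T x = A n x := by
    intro x n hn
    rcases le_total n (N x) with hle | hle
    · obtain ⟨k, hk⟩ := Nat.exists_eq_add_of_le hle
      show A (N x) x = A n x
      rw [hk]
      exact hmono n k x hn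
    · obtain ⟨k, hk⟩ := Nat.exists_eq_add_of_le hle
      show A (N x) x = A n x
      rw [hk]
      exact (hmono (N x) k x (hN x)).symm
  have hTS : ∀ x, ‖x‖ < r → T x = S x := by
    intro x hx
    rw [hT x 0 (by simpa using hx)]
    simp [A]
  have hadd : ∀ x y, T (x + y) = T x + T y := by
    intro x y
    obtain ⟨n, hn⟩ := hex (‖x‖ + ‖y‖)
    have h1 : ‖x‖ < 2 ^ n * r := lt_of_le_of_lt (by linarith [norm_nonneg y]) hn
    have h2 : ‖y‖ < 2 ^ n * r := lt_of_le_of_lt (by linarith [norm_nonneg x]) hn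
    have h3 : ‖x + y‖ < 2 ^ n * r := (norm_add_le x y).trans_lt hn
    rw [hT _ n h3, hT x n h1, hT y n h2]
    show (2 : ℝ) ^ n • S (((2 : ℝ) ^ n)⁻¹ • (x + y)) = (2 : ℝ) ^ n • S (((2 : ℝ) ^ n)⁻¹ • x)
      + (2 : ℝ) ^ n • S (((2 : ℝ) ^ n)⁻¹ • y)
    rw [smul_add, h _ _ (hlt n x h1) (hlt n y h2), smul_add]
  let f : F →+ Q := AddMonoidHom.mk' T hadd
  have hev : T =ᶠ[𝓝 0] S := by
    filter_upwards [Metric.ball_mem_nhds (0 : F) hr] with x hx
    exact hTS x (by simpa using hx)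
  have hc0 : ContinuousAt f 0 := by
    show ContinuousAt T 0
    exact hS.congr hev.symm
  have hcont : Continuous f := continuous_of_continuousAt_zero f hc0
  exact ⟨f.toRealLinearMap hcont, fun ε hε => hTS ε hε⟩

end NSp
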