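import Pool.Agent.Helper97.NS.Defs

open Set Topology Filter

namespace NSp

theorem good_pairs {E F : Type*} [NormedAddCommGroup E] [NormedSpace ℝ E]
    [NormedAddCommGroup F] [NormedSpace ℝ F] (hL : LocSpan E) (f : F ≃ₜ E) :
    Dense {q : F × F | ∃ L : Submodule ℝ E, FiniteDimensional ℝ L ∧
      ∀ᶠ q' in 𝓝 q, f (q'.1 + q'.2) ∈ L ⊔ Submodule.span ℝ {f q'.1, f q'.2}} := by
  rw [dense_iff_inter_open]
  rintro N hN ⟨x, hx⟩
  have hm : Continuous (fun p : E × E => f (f.symm p.1 + f.symm p.2)) := by fun_prop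
  have hg : Continuous (fun p : E × E => (f.symm p.1, f.symm p.2)) := by fun_prop
  have hk : Continuous (fun p : F × F => (f p.1, f p.2)) := by fun_prop
  obtain ⟨O, hON, hO, ⟨p, hp⟩, L, hLf, hmem⟩ := hL _ hm
    ((fun p : E × E => (f.symm p.1, f.symm p.2)) ⁻¹' N) (hN.preimage hg)
    ⟨(f x.1, f x.2), by simpa using hx⟩
  refine ⟨(f.symm p.1, f.symm p.2), hON hp, L, hLf, ?_⟩
  have h1 : (fun p : F × F => (f p.1, f p.2)) ⁻¹' O ∈ 𝓝 ((f.symm p.1, f.symm p.2) : F × F) := by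
    apply hk.continuousAt.preimage_mem_nhds
    apply hO.mem_nhds
    simpa using hp
  filter_upwards [h1] with q' hq'
  have h2 := hmem _ hq'
  simpa using h2

end NSp
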