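import Pool.Agent.Helper97.NS.Defs

open Set Topology Filter

namespace NSp

theorem open_avoid {E : Type*} [NormedAddCommGroup E] [NormedSpace ℝ E]
    (hE : ¬ FiniteDimensional ℝ E) (L : Submodule ℝ E) (hL : FiniteDimensional ℝ L) (U : Set E)
    (hU : IsOpen U) (hne : U.Nonempty) : ∃ x ∈ U, x ∉ L := by
  by_contra hcon
  push Not at hcon
  have hsub : U ⊆ (L : Set E) := fun x hx => hcon x hx
  have hint : (interior (L : Set E)).Nonempty := by
    obtain ⟨x, hx⟩ := hne
    exact ⟨x, interior_maximal hsub hU hx⟩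
  have htop := Submodule.eq_top_of_nonempty_interior' L hint
  apply hE
  rw [htop] at hL
  exact Module.Finite.equiv (Submodule.topEquiv (R := ℝ) (M := E))

end NSp
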