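import Pool.Agent.Helper97.NS.Defs
import Pool.Agent.Helper97.NS.J_open_avoid

open Set Topology Filter

namespace NSp

theorem ind_dense {E : Type*} [NormedAddCommGroup E] [NormedSpace ℝ E]
    (hE : ¬ FiniteDimensional ℝ E) (L : Submodule ℝ E) (hL : FiniteDimensional ℝ L) :
    Dense {t : E × E × E | Ind L t.1 t.2.1 t.2.2} := by
  classical
  have := hL
  rw [dense_iff_inter_open]
  intro U hU hne
  obtain ⟨⟨x0, y0, z0⟩, h0⟩ := hne
  obtain ⟨U1, V, hU1, hV, hx0, hyz, hsub⟩ := isOpen_prod_iff.1 hU x0 (y0, z0) h0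
  obtain ⟨U2, U3, hU2, hU3, hy0, hz0, hsub2⟩ := isOpen_prod_iff.1 hV y0 z0 hyz
  obtain ⟨x, hx, hxL⟩ := open_avoid hE L hL U1 hU1 ⟨x0, hx0⟩
  obtain ⟨y, hy, hyL⟩ := open_avoid hE (L ⊔ Submodule.span ℝ {x}) inferInstance U2 hU2 ⟨y0, hy0⟩
  obtain ⟨z, hz, hzL⟩ := open_avoid hE (L ⊔ Submodule.span ℝ {x} ⊔ Submodule.span ℝ {y})
    inferInstance U3 hU3 ⟨z0, hz0⟩
  refine ⟨(x, y, z), hsub ⟨hx, hsub2 ⟨hy, hz⟩⟩, ?_⟩
  change Ind L x y z
  intro a b c h
  have hc : c = 0 := by
    by_contra hc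
    apply hzL
    have e : z = c⁻¹ • (a • x + b • y + c • z) + ((-(c⁻¹ * a)) • x) + ((-(c⁻¹ * b)) • y) := by
      simp only [smul_add, smul_smul, neg_smul, inv_mul_cancel₀ hc, one_smul]
      abel
    rw [e]
    refine Submodule.add_mem _ (Submodule.mem_sup_left (Submodule.add_mem _
      (Submodule.mem_sup_left (L.smul_mem _ h)) (Submodule.mem_sup_right
        (Submodule.smul_mem _ _ (Submodule.mem_span_singleton_self x)))))
      (Submodule.mem_sup_right (Submodule.smul_mem _ _ (Submodule.mem_span_singleton_self y)))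
  subst hc
  have hb : b = 0 := by
    by_contra hb
    apply hyL
    have e : y = b⁻¹ • (a • x + b • y + (0:ℝ) • z) + ((-(b⁻¹ * a)) • x) := by
      rw [zero_smul, add_zero, smul_add, smul_smul, smul_smul, inv_mul_cancel₀ hb, one_smul,
        neg_smul]
      abel
    rw [e]
    refine Submodule.add_mem _
      (Submodule.mem_sup_left (L.smul_mem _ h)) (Submodule.mem_sup_right
        (Submodule.smul_mem _ _ (Submodule.mem_span_singleton_self x)))
  subst hb
  have ha : a = 0 := by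
    by_contra ha
    apply hxL
    have e : x = a⁻¹ • (a • x + (0:ℝ) • y + (0:ℝ) • z) := by
      simp only [smul_add, smul_smul, inv_mul_cancel₀ ha, one_smul, zero_smul, mul_zero, add_zero]
    rw [e]
    exact L.smul_mem _ h
  exact ⟨ha, rfl, rfl⟩

end NSp
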