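import Pool.Agent.Helper97.NS.Defs

open Set Topology Filter

namespace NSp

theorem ind_open {E : Type*} [NormedAddCommGroup E] [NormedSpace ℝ E]
    (L : Submodule ℝ E) (hL : FiniteDimensional ℝ L) :
    IsOpen {t : E × E × E | Ind L t.1 t.2.1 t.2.2} := by
  haveI : IsClosed (L : Set E) := Submodule.closed_of_finiteDimensional L
  have hopen : IsOpen {f : Fin 3 → E ⧸ L | LinearIndependent ℝ f} :=
    isOpen_setOf_linearIndependent
  have hmk : Continuous (L.mkQ : E → E ⧸ L) := L.isOpenQuotientMap_mkQ.continuous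
  have hcont : Continuous fun t : E × E × E => (![L.mkQ t.1, L.mkQ t.2.1, L.mkQ t.2.2] :
      Fin 3 → E ⧸ L) := by
    refine continuous_pi fun i => ?_
    fin_cases i
    · exact hmk.comp continuous_fst
    · exact hmk.comp (continuous_fst.comp continuous_snd)
    · exact hmk.comp (continuous_snd.comp continuous_snd)
  have heq : {t : E × E × E | Ind L t.1 t.2.1 t.2.2} =
      (fun t : E × E × E => (![L.mkQ t.1, L.mkQ t.2.1, L.mkQ t.2.2] : Fin 3 → E ⧸ L)) ⁻¹'
        {f : Fin 3 → E ⧸ L | LinearIndependent ℝ f} := by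
    ext t
    change Ind L t.1 t.2.1 t.2.2 ↔ LinearIndependent ℝ
      (![L.mkQ t.1, L.mkQ t.2.1, L.mkQ t.2.2] : Fin 3 → E ⧸ L)
    rw [Fintype.linearIndependent_iff]
    have hkey : ∀ a b c : ℝ, a • t.1 + b • t.2.1 + c • t.2.2 ∈ L ↔
        a • L.mkQ t.1 + b • L.mkQ t.2.1 + c • L.mkQ t.2.2 = 0 := by
      intro a b c
      rw [← map_smul, ← map_smul, ← map_smul, ← map_add, ← map_add, Submodule.mkQ_apply,
        Submodule.Quotient.mk_eq_zero]
    constructor
    · intro h g hg
      rw [Fin.sum_univ_three] at hg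
      have h1 := h (g 0) (g 1) (g 2) ((hkey _ _ _).mpr hg)
      intro i
      fin_cases i
      · exact h1.1
      · exact h1.2.1
      · exact h1.2.2
    · intro h a b c habc
      have h1 := h ![a, b, c] (by
        rw [Fin.sum_univ_three]
        exact (hkey _ _ _).mp habc)
      exact ⟨h1 0, h1 1, h1 2⟩
  rw [heq]
  exact hopen.preimage hcont

end NSp
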