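import Pool.Agent.Helper97.NS.Defs
import Pool.Agent.Helper97.NS.J_good_pairs
import Pool.Agent.Helper97.NS.J_ind_open
import Pool.Agent.Helper97.NS.J_ind_dense

open Set Topology Filter

namespace NSp

theorem good_point {E F : Type*} [NormedAddCommGroup E] [NormedSpace ℝ E]
    [NormedAddCommGroup F] [NormedSpace ℝ F] (hE : ¬ FiniteDimensional ℝ E) (hL : LocSpan E)
    (f : F ≃ₜ E) :
    ∃ (L : Submodule ℝ E) (u₀ v₀ w₀ : F) (r : ℝ), FiniteDimensional ℝ L ∧ 0 < r ∧
      ∀ u v w : F, dist u u₀ < r → dist v v₀ < r → dist w w₀ < r →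
        f (u + v) ∈ L ⊔ Submodule.span ℝ {f u, f v} ∧
        f (v + w) ∈ L ⊔ Submodule.span ℝ {f v, f w} ∧
        f (u + w) ∈ L ⊔ Submodule.span ℝ {f u, f w} ∧
        f (u + v + w) ∈ L ⊔ Submodule.span ℝ {f (u + v), f w} ∧
        f (u + v + w) ∈ L ⊔ Submodule.span ℝ {f u, f (v + w)} ∧
        f (u + v + w) ∈ L ⊔ Submodule.span ℝ {f v, f (u + w)} ∧
        Ind L (f u) (f v) (f w) ∧ Ind L (f (u + v + w)) (f v) (f w) ∧
        Ind L (f u) (f (u + v + w)) (f w) ∧ Ind L (f u) (f v) (f (u + v + w)) := by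
  have hf : Continuous f := f.continuous
  have hfs : Continuous f.symm := f.symm.continuous
  obtain ⟨G, hG⟩ : ∃ G : Set (F × F), G = {q : F × F | ∃ L : Submodule ℝ E,
      FiniteDimensional ℝ L ∧
      ∀ᶠ q' in 𝓝 q, f (q'.1 + q'.2) ∈ L ⊔ Submodule.span ℝ {f q'.1, f q'.2}} := ⟨_, rfl⟩
  have hGd : Dense G := by rw [hG]; exact good_pairs hL f
  have hGo : IsOpen G := by
    rw [isOpen_iff_mem_nhds]
    intro q hq
    rw [hG] at hq
    obtain ⟨L, hLf, hq⟩ := hq
    filter_upwards [eventually_eventually_nhds.mpr hq] with q' hq'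
    rw [hG]
    exact ⟨L, hLf, hq'⟩
  -- the six maps
  have c1 : Continuous (fun t : F × F × F => (t.1, t.2.1)) := by fun_prop
  have c2 : Continuous (fun t : F × F × F => (t.2.1, t.2.2)) := by fun_prop
  have c3 : Continuous (fun t : F × F × F => (t.1, t.2.2)) := by fun_prop
  have c4 : Continuous (fun t : F × F × F => (t.1 + t.2.1, t.2.2)) := by fun_prop
  have c5 : Continuous (fun t : F × F × F => (t.1, t.2.1 + t.2.2)) := by fun_prop
  have c6 : Continuous (fun t : F × F × F => (t.2.1, t.1 + t.2.2)) := by fun_prop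
  have o1 : IsOpenMap (fun t : F × F × F => (t.1, t.2.1)) :=
    IsOpenMap.of_sections fun t => ⟨fun p => (p.1, p.2, t.2.2), by fun_prop, rfl, fun p => rfl⟩
  have o2 : IsOpenMap (fun t : F × F × F => (t.2.1, t.2.2)) :=
    IsOpenMap.of_sections fun t => ⟨fun p => (t.1, p.1, p.2), by fun_prop, rfl, fun p => rfl⟩
  have o3 : IsOpenMap (fun t : F × F × F => (t.1, t.2.2)) :=
    IsOpenMap.of_sections fun t => ⟨fun p => (p.1, t.2.1, p.2), by fun_prop, rfl, fun p => rfl⟩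
  have o4 : IsOpenMap (fun t : F × F × F => (t.1 + t.2.1, t.2.2)) :=
    IsOpenMap.of_sections fun t => ⟨fun p => (p.1 - t.2.1, t.2.1, p.2), by fun_prop,
      by simp, fun p => by simp⟩
  have o5 : IsOpenMap (fun t : F × F × F => (t.1, t.2.1 + t.2.2)) :=
    IsOpenMap.of_sections fun t => ⟨fun p => (p.1, p.2 - t.2.2, t.2.2), by fun_prop,
      by simp, fun p => by simp⟩
  have o6 : IsOpenMap (fun t : F × F × F => (t.2.1, t.1 + t.2.2)) :=
    IsOpenMap.of_sections fun t => ⟨fun p => (p.2 - t.2.2, p.1, t.2.2), by fun_prop,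
      by simp, fun p => by simp⟩
  have i1 : IsOpen ((fun t : F × F × F => (t.1, t.2.1)) ⁻¹' G) := hGo.preimage c1
  have i2 : IsOpen ((fun t : F × F × F => (t.2.1, t.2.2)) ⁻¹' G) := hGo.preimage c2
  have i3 : IsOpen ((fun t : F × F × F => (t.1, t.2.2)) ⁻¹' G) := hGo.preimage c3
  have i4 : IsOpen ((fun t : F × F × F => (t.1 + t.2.1, t.2.2)) ⁻¹' G) := hGo.preimage c4
  have i5 : IsOpen ((fun t : F × F × F => (t.1, t.2.1 + t.2.2)) ⁻¹' G) := hGo.preimage c5
  have hD := ((((((hGd.preimage o1).inter_of_isOpen_left (hGd.preimage o2) i1).inter_of_isOpen_left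
    (hGd.preimage o3) (i1.inter i2)).inter_of_isOpen_left (hGd.preimage o4)
    ((i1.inter i2).inter i3)).inter_of_isOpen_left (hGd.preimage o5)
    (((i1.inter i2).inter i3).inter i4)).inter_of_isOpen_left (hGd.preimage o6)
    ((((i1.inter i2).inter i3).inter i4).inter i5))
  obtain ⟨t0, ⟨⟨⟨⟨⟨g1, g2⟩, g3⟩, g4⟩, g5⟩, g6⟩⟩ := hD.nonempty
  rw [hG] at g1 g2 g3 g4 g5 g6
  obtain ⟨L1, f1, e1⟩ := g1
  obtain ⟨L2, f2, e2⟩ := g2
  obtain ⟨L3, f3, e3⟩ := g3
  obtain ⟨L4, f4, e4⟩ := g4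
  obtain ⟨L5, f5, e5⟩ := g5
  obtain ⟨L6, f6, e6⟩ := g6
  have e1' := (c1.tendsto t0).eventually e1
  have e2' := (c2.tendsto t0).eventually e2
  have e3' := (c3.tendsto t0).eventually e3
  have e4' := (c4.tendsto t0).eventually e4
  have e5' := (c5.tendsto t0).eventually e5
  have e6' := (c6.tendsto t0).eventually e6
  obtain ⟨L, hLdef⟩ : ∃ L : Submodule ℝ E, L = L1 ⊔ L2 ⊔ L3 ⊔ L4 ⊔ L5 ⊔ L6 := ⟨_, rfl⟩
  have hLf : FiniteDimensional ℝ L := by rw [hLdef]; infer_instance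
  have l6 : L6 ≤ L := by rw [hLdef]; exact le_sup_right
  have l5 : L5 ≤ L := by rw [hLdef]; exact le_sup_right.trans le_sup_left
  have l4 : L4 ≤ L := by
    rw [hLdef]; exact (le_sup_right.trans le_sup_left).trans le_sup_left
  have l3 : L3 ≤ L := by
    rw [hLdef]; exact ((le_sup_right.trans le_sup_left).trans le_sup_left).trans le_sup_left
  have l2 : L2 ≤ L := by
    rw [hLdef]
    exact (((le_sup_right.trans le_sup_left).trans le_sup_left).trans le_sup_left).trans le_sup_left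
  have l1 : L1 ≤ L := by
    rw [hLdef]
    exact (((le_sup_left.trans le_sup_left).trans le_sup_left).trans le_sup_left).trans le_sup_left
  have hP : ∀ᶠ t : F × F × F in 𝓝 t0,
      f (t.1 + t.2.1) ∈ L ⊔ Submodule.span ℝ {f t.1, f t.2.1} ∧
      f (t.2.1 + t.2.2) ∈ L ⊔ Submodule.span ℝ {f t.2.1, f t.2.2} ∧
      f (t.1 + t.2.2) ∈ L ⊔ Submodule.span ℝ {f t.1, f t.2.2} ∧
      f (t.1 + t.2.1 + t.2.2) ∈ L ⊔ Submodule.span ℝ {f (t.1 + t.2.1), f t.2.2} ∧
      f (t.1 + t.2.1 + t.2.2) ∈ L ⊔ Submodule.span ℝ {f t.1, f (t.2.1 + t.2.2)} ∧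
      f (t.1 + t.2.1 + t.2.2) ∈ L ⊔ Submodule.span ℝ {f t.2.1, f (t.1 + t.2.2)} := by
    filter_upwards [e1', e2', e3', e4', e5', e6'] with t k1 k2 k3 k4 k5 k6
    refine ⟨sup_le_sup_right l1 _ k1, sup_le_sup_right l2 _ k2, sup_le_sup_right l3 _ k3,
      sup_le_sup_right l4 _ k4, ?_, ?_⟩
    · have := sup_le_sup_right l5 _ k5
      rwa [← add_assoc] at this
    · have := sup_le_sup_right l6 _ k6
      rwa [show t.2.1 + (t.1 + t.2.2) = t.1 + t.2.1 + t.2.2 by abel] at this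
  -- independence
  have hIo := ind_open L hLf
  have hId := ind_dense hE L hLf
  have d7 : Continuous (fun t : F × F × F => (f t.1, f t.2.1, f t.2.2)) := by fun_prop
  have d8 : Continuous (fun t : F × F × F => (f (t.1 + t.2.1 + t.2.2), f t.2.1, f t.2.2)) := by
    fun_prop
  have d9 : Continuous (fun t : F × F × F => (f t.1, f (t.1 + t.2.1 + t.2.2), f t.2.2)) := by
    fun_prop
  have d10 : Continuous (fun t : F × F × F => (f t.1, f t.2.1, f (t.1 + t.2.1 + t.2.2))) := by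
    fun_prop
  have p7 : IsOpenMap (fun t : F × F × F => (f t.1, f t.2.1, f t.2.2)) :=
    IsOpenMap.of_sections fun t => ⟨fun p => (f.symm p.1, f.symm p.2.1, f.symm p.2.2),
      (Continuous.continuousAt (by fun_prop)), by simp, fun p => by simp⟩
  have p8 : IsOpenMap (fun t : F × F × F => (f (t.1 + t.2.1 + t.2.2), f t.2.1, f t.2.2)) :=
    IsOpenMap.of_sections fun t => ⟨fun p => (f.symm p.1 - f.symm p.2.1 - f.symm p.2.2,
      f.symm p.2.1, f.symm p.2.2),
      (Continuous.continuousAt (by fun_prop)), by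
        have e : t.1 + t.2.1 + t.2.2 - t.2.1 - t.2.2 = t.1 := by abel
        simp [e], fun p => by
        have e : f.symm p.1 - f.symm p.2.1 - f.symm p.2.2 + f.symm p.2.1 + f.symm p.2.2
          = f.symm p.1 := by abel
        simp [e]⟩
  have p9 : IsOpenMap (fun t : F × F × F => (f t.1, f (t.1 + t.2.1 + t.2.2), f t.2.2)) :=
    IsOpenMap.of_sections fun t => ⟨fun p => (f.symm p.1, f.symm p.2.1 - f.symm p.1 -
      f.symm p.2.2, f.symm p.2.2),
      (Continuous.continuousAt (by fun_prop)), by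
        have e : t.1 + t.2.1 + t.2.2 - t.1 - t.2.2 = t.2.1 := by abel
        simp [e], fun p => by
        have e : f.symm p.1 + (f.symm p.2.1 - f.symm p.1 - f.symm p.2.2) + f.symm p.2.2
          = f.symm p.2.1 := by abel
        simp [e]⟩
  have p10 : IsOpenMap (fun t : F × F × F => (f t.1, f t.2.1, f (t.1 + t.2.1 + t.2.2))) :=
    IsOpenMap.of_sections fun t => ⟨fun p => (f.symm p.1, f.symm p.2.1,
      f.symm p.2.2 - (f.symm p.1 + f.symm p.2.1)),
      (Continuous.continuousAt (by fun_prop)), by simp, fun p => by simp⟩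
  have j7 := hIo.preimage d7
  have j8 := hIo.preimage d8
  have j9 := hIo.preimage d9
  have j10 := hIo.preimage d10
  have hD2 := (((hId.preimage p7).inter_of_isOpen_left (hId.preimage p8) j7).inter_of_isOpen_left
    (hId.preimage p9) (j7.inter j8)).inter_of_isOpen_left (hId.preimage p10)
    ((j7.inter j8).inter j9)
  obtain ⟨t1, ht1, hP1⟩ := hD2.inter_nhds_nonempty (eventually_eventually_nhds.mpr hP)
  have hopen := (((j7.inter j8).inter j9).inter j10).mem_nhds ht1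
  have hP1' : ∀ᶠ t : F × F × F in 𝓝 t1, _ := hP1
  obtain ⟨r, hr, hball⟩ := Metric.eventually_nhds_iff.mp (hP1'.and hopen)
  refine ⟨L, t1.1, t1.2.1, t1.2.2, r, hLf, hr, ?_⟩
  intro u v w hu hv hw
  have hd : dist (u, v, w) t1 < r := by
    rw [Prod.dist_eq, Prod.dist_eq]
    exact max_lt hu (max_lt hv hw)
  obtain ⟨⟨k1, k2, k3, k4, k5, k6⟩, ⟨⟨k7, k8⟩, k9⟩, k10⟩ := hball hd
  exact ⟨k1, k2, k3, k4, k5, k6, k7, k8, k9, k10⟩

end NSp
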