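import Pool.Agent.Helper97.NS.Defs

open Set Topology Filter

namespace NSp

theorem local_add {F Q : Type*} [NormedAddCommGroup F] [AddCommGroup Q] (T1 T2 : F → Q)
    (u₀ v₀ : F) (r : ℝ) (hr : 0 < r)
    (h : ∀ u v u' v', dist u u₀ < r → dist v v₀ < r → dist u' u₀ < r → dist v' v₀ < r →
      u + v = u' + v' → T1 u + T2 v = T1 u' + T2 v') (ε δ : F) (hε : ‖ε‖ < r / 2)
    (hδ : ‖δ‖ < r / 2) :
    T1 (u₀ + (ε + δ)) - T1 u₀ = (T1 (u₀ + ε) - T1 u₀) + (T1 (u₀ + δ) - T1 u₀) := by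
  have hd : ∀ (w x : F), ‖x‖ < r → dist (w + x) w < r := by
    intro w x hx
    rw [dist_eq_norm, add_sub_cancel_left]
    exact hx
  have hd0 : ∀ w : F, dist w w < r := fun w => by rw [dist_self]; exact hr
  have hεδ : ‖ε + δ‖ < r := lt_of_le_of_lt (norm_add_le _ _) (by linarith)
  have h1 := h (u₀ + ε) (v₀ + δ) (u₀ + (ε + δ)) v₀ (hd _ _ (by linarith)) (hd _ _ (by linarith))
    (hd _ _ hεδ) (hd0 _) (by abel)
  have h2 := h u₀ (v₀ + δ) (u₀ + δ) v₀ (hd0 _) (hd _ _ (by linarith))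
    (hd _ _ (by linarith)) (hd0 _) (by abel)
  have h3 : T1 (u₀ + (ε + δ)) = T1 (u₀ + ε) + T2 (v₀ + δ) - T2 v₀ := by rw [h1]; abel
  have h4 : T1 (u₀ + δ) = T1 u₀ + T2 (v₀ + δ) - T2 v₀ := by rw [h2]; abel
  rw [h3, h4]
  abel

end NSp
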