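import Pool.Agent.Helper97.NS.Defs
import Pool.Agent.Helper97.NS.J_good_point
import Pool.Agent.Helper97.NS.J_exact_add
import Pool.Agent.Helper97.NS.J_local_add
import Pool.Agent.Helper97.NS.J_extend_additive
import Pool.Agent.Helper97.NS.J_coeff_cont

open Set Topology Filter

namespace NSp

theorem al_span {E : Type*} [AddCommGroup E] [Module ℝ E] (K : Submodule ℝ E) {x y z : E}
    (h : x ∈ K ⊔ Submodule.span ℝ {y, z}) :
    K.mkQ x ∈ Submodule.span ℝ {K.mkQ y, K.mkQ z} := by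
  obtain ⟨l, hl, t, ht, rfl⟩ := Submodule.mem_sup.mp h
  have h1 : K.mkQ l = 0 := by
    rw [Submodule.mkQ_apply, Submodule.Quotient.mk_eq_zero]
    exact hl
  rw [map_add, h1, zero_add]
  have h2 : K.mkQ t ∈ Submodule.map K.mkQ (Submodule.span ℝ {y, z}) :=
    Submodule.mem_map_of_mem ht
  rw [Submodule.map_span, Set.image_pair] at h2
  exact h2

theorem al_ind {E : Type*} [AddCommGroup E] [Module ℝ E] (K : Submodule ℝ E) {x y z : E}
    (h : Ind K x y z) : Ind3 (K.mkQ x) (K.mkQ y) (K.mkQ z) := by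
  intro a b c habc
  apply h a b c
  rw [← map_smul, ← map_smul, ← map_smul, ← map_add, ← map_add, Submodule.mkQ_apply,
    Submodule.Quotient.mk_eq_zero] at habc
  exact habc

theorem almost_linear {E F : Type*} [NormedAddCommGroup E] [NormedSpace ℝ E]
    [NormedAddCommGroup F] [NormedSpace ℝ F] (hE : ¬ FiniteDimensional ℝ E) (hL : LocSpan E)
    (f : F ≃ₜ E) :
    ∃ (L : Submodule ℝ E) (u₀ : F) (r M C : ℝ) (ρ : F → ℝ) (S : F →ₗ[ℝ] (E ⧸ L)),
      FiniteDimensional ℝ L ∧ 0 < r ∧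
      (∀ v, ∃ y, L.mkQ y = S v ∧ ‖y‖ ≤ C * ‖v‖) ∧
      ∀ ε, ‖ε‖ < r → ‖f (u₀ + ε)‖ ≤ M ∧ |ρ ε| ≤ M ∧ L.mkQ (f (u₀ + ε)) = ρ ε • S ε := by
  obtain ⟨K, u₀, v₀, w₀, r, hfd, hr, H⟩ := good_point hE hL f
  haveI := hfd
  haveI hKc : IsClosed (K : Set E) := K.closed_of_finiteDimensional
  obtain ⟨g, hg⟩ : ∃ g : F → E ⧸ K, g = fun u => K.mkQ (f u) := ⟨_, rfl⟩
  have hmk : Continuous (fun x : E => K.mkQ x) := by
    have h1 : ∀ x : E, ‖K.mkQ x‖ ≤ 1 * ‖x‖ := by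
      intro x
      rw [one_mul]
      exact Submodule.Quotient.norm_mk_le K x
    exact (K.mkQ.mkContinuous 1 h1).continuous
  have hgc : Continuous g := by
    rw [hg]
    exact hmk.comp f.continuous
  have Hg : ∀ u v w : F, dist u u₀ < r → dist v v₀ < r → dist w w₀ < r →
      g (u + v) ∈ Submodule.span ℝ {g u, g v} ∧
      g (v + w) ∈ Submodule.span ℝ {g v, g w} ∧
      g (u + w) ∈ Submodule.span ℝ {g u, g w} ∧
      g (u + v + w) ∈ Submodule.span ℝ {g (u + v), g w} ∧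
      g (u + v + w) ∈ Submodule.span ℝ {g u, g (v + w)} ∧
      g (u + v + w) ∈ Submodule.span ℝ {g v, g (u + w)} ∧
      Ind3 (g u) (g v) (g w) ∧ Ind3 (g (u + v + w)) (g v) (g w) ∧
      Ind3 (g u) (g (u + v + w)) (g w) ∧ Ind3 (g u) (g v) (g (u + v + w)) := by
    intro u v w hu hv hw
    obtain ⟨a1, a2, a3, a4, a5, a6, a7, a8, a9, a10⟩ := H u v w hu hv hw
    rw [hg]
    exact ⟨al_span K a1, al_span K a2, al_span K a3, al_span K a4, al_span K a5, al_span K a6,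
      al_ind K a7, al_ind K a8, al_ind K a9, al_ind K a10⟩
  have hw0 : dist w₀ w₀ < r := by rw [dist_self]; exact hr
  have hu0 : dist u₀ u₀ < r := by rw [dist_self]; exact hr
  have hv0 : dist v₀ v₀ < r := by rw [dist_self]; exact hr
  obtain ⟨lam, mu, k, hk, hadd⟩ := exact_add g (Metric.ball u₀ r) (Metric.ball v₀ r) w₀
    ⟨u₀, Metric.mem_ball_self hr⟩ ⟨v₀, Metric.mem_ball_self hr⟩
    (fun u hu v hv => Hg u v w₀ hu hv hw0)
  have hlamc : ContinuousAt lam u₀ := by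
    apply coeff_cont g (fun u => g (u + w₀)) (g w₀) u₀ lam k hgc.continuousAt
      (hgc.comp (continuous_id.add continuous_const)).continuousAt
    · intro a b hab
      have h1 := (Hg u₀ v₀ w₀ hu0 hv0 hw0).2.2.2.2.2.2.1 a 0 b (by
        rw [zero_smul, add_zero]
        exact hab)
      exact ⟨h1.1, h1.2.2⟩
    · filter_upwards [Metric.ball_mem_nhds u₀ hr] with u hu
      exact (hk u hu).2.2
    · exact (hk u₀ (Metric.mem_ball_self hr)).2.1
  have hlam0 : lam u₀ ≠ 0 := (hk u₀ (Metric.mem_ball_self hr)).1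
  obtain ⟨S1, hS1⟩ : ∃ S1 : F → E ⧸ K,
      S1 = fun ε => lam (u₀ + ε) • g (u₀ + ε) - lam u₀ • g u₀ := ⟨_, rfl⟩
  have hS1c : ContinuousAt S1 0 := by
    rw [hS1]
    have h1 : ContinuousAt (fun ε : F => u₀ + ε) 0 := by fun_prop
    have h2 : ContinuousAt (fun ε : F => lam (u₀ + ε)) 0 := by
      have h3 : ContinuousAt lam (u₀ + 0) := by rw [add_zero]; exact hlamc
      exact ContinuousAt.comp (f := fun ε : F => u₀ + ε) (g := lam) h3 h1
    have h4 : ContinuousAt (fun ε : F => g (u₀ + ε)) 0 :=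
      (hgc.comp (continuous_const.add continuous_id)).continuousAt
    exact (h2.smul h4).sub continuousAt_const
  obtain ⟨T, hT⟩ := extend_additive S1 (r / 2) (by linarith) hS1c (by
    intro ε δ hε hδ
    rw [hS1]
    exact local_add (fun u => lam u • g u) (fun v => mu v • g v) u₀ v₀ r hr
      (fun u v u' v' h1 h2 h3 h4 h5 => hadd u h1 v h2 u' h3 v' h4 h5) ε δ hε hδ)
  -- the subspace `L`
  obtain ⟨c, hc⟩ : ∃ c : E, c = lam u₀ • f u₀ := ⟨_, rfl⟩
  obtain ⟨L, hLdef⟩ : ∃ L : Submodule ℝ E, L = K ⊔ Submodule.span ℝ {c} := ⟨_, rfl⟩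
  have hKL : K ≤ L := by
    rw [hLdef]
    exact le_sup_left
  have hcL : c ∈ L := by
    rw [hLdef]
    exact Submodule.mem_sup_right (Submodule.mem_span_singleton_self c)
  have hLfd : FiniteDimensional ℝ L := by
    rw [hLdef]
    infer_instance
  obtain ⟨Φ, hΦ⟩ : ∃ Φ : (E ⧸ K) →ₗ[ℝ] (E ⧸ L), ∀ x : E, Φ (K.mkQ x) = L.mkQ x :=
    ⟨Submodule.mapQ K L LinearMap.id hKL, fun x => rfl⟩
  -- bounds
  have hb1 : ∀ᶠ u in 𝓝 u₀, ‖f u‖ < ‖f u₀‖ + 1 :=
    (f.continuous.norm.continuousAt).eventually (gt_mem_nhds (by linarith))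
  have hinv : ContinuousAt (fun u => |(lam u)⁻¹|) u₀ := (hlamc.inv₀ hlam0).abs
  have hb2 : ∀ᶠ u in 𝓝 u₀, |(lam u)⁻¹| < |(lam u₀)⁻¹| + 1 :=
    hinv.eventually (gt_mem_nhds (lt_add_one _))
  obtain ⟨r1, hr1, hr1'⟩ := Metric.eventually_nhds_iff.mp (hb1.and hb2)
  refine ⟨L, u₀, min (r / 2) r1, max (‖f u₀‖ + 1) (|(lam u₀)⁻¹| + 1), ‖T‖ + 1,
    fun ε => (lam (u₀ + ε))⁻¹, Φ ∘ₗ (T : F →ₗ[ℝ] (E ⧸ K)), hLfd, lt_min (by linarith) hr1, ?_, ?_⟩
  · intro v
    by_cases hv : v = 0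
    · refine ⟨0, ?_, ?_⟩
      · rw [hv, map_zero, map_zero]
      · rw [hv, norm_zero, norm_zero, mul_zero]
    · have hvn : 0 < ‖v‖ := norm_pos_iff.mpr hv
      obtain ⟨y, hy1, hy2⟩ := Submodule.Quotient.norm_mk_lt (T v) hvn
      refine ⟨y, ?_, ?_⟩
      · rw [LinearMap.comp_apply, ← hΦ y]
        have : K.mkQ y = T v := hy1
        rw [this]
        rfl
      · have h1 := T.le_opNorm v
        calc ‖y‖ ≤ ‖T v‖ + ‖v‖ := hy2.le
          _ ≤ ‖T‖ * ‖v‖ + ‖v‖ := by linarith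
          _ = (‖T‖ + 1) * ‖v‖ := by ring
  · intro ε hε
    have hε1 : ‖ε‖ < r / 2 := lt_of_lt_of_le hε (min_le_left _ _)
    have hε2 : dist (u₀ + ε) u₀ < r1 := by
      rw [dist_eq_norm, add_sub_cancel_left]
      exact lt_of_lt_of_le hε (min_le_right _ _)
    obtain ⟨c1, c2⟩ := hr1' hε2
    refine ⟨c1.le.trans (le_max_left _ _), c2.le.trans (le_max_right _ _), ?_⟩
    have hball : u₀ + ε ∈ Metric.ball u₀ r := by
      rw [Metric.mem_ball, dist_eq_norm, add_sub_cancel_left]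
      linarith
    have hl0 : lam (u₀ + ε) ≠ 0 := (hk _ hball).1
    have h1 := hT ε hε1
    rw [hS1] at h1
    simp only at h1
    have h2 : lam (u₀ + ε) • g (u₀ + ε) = T ε + lam u₀ • g u₀ := by
      rw [h1, sub_add_cancel]
    have h3 := congrArg Φ h2
    rw [hg] at h3
    simp only at h3
    rw [Φ.map_smul, Φ.map_add, Φ.map_smul, hΦ, hΦ] at h3
    have h4 : lam u₀ • L.mkQ (f u₀) = 0 := by
      rw [← map_smul, ← hc, Submodule.mkQ_apply, Submodule.Quotient.mk_eq_zero]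
      exact hcL
    rw [h4, add_zero] at h3
    have h5 : (Φ ∘ₗ (T : F →ₗ[ℝ] (E ⧸ K))) ε = Φ (T ε) := rfl
    rw [h5, ← h3, smul_smul, inv_mul_cancel₀ hl0, one_smul]

end NSp
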