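import Pool.Agent.Helper97.NS.Defs

open Set Topology Filter

namespace NSp

theorem compact_conv {E F : Type*} [NormedAddCommGroup E] [NormedSpace ℝ E]
    [NormedAddCommGroup F] [NormedSpace ℝ F] (f : F ≃ₜ E) (L : Submodule ℝ E)
    (hL : FiniteDimensional ℝ L) (u₀ : F) (r M C : ℝ) (ρ : F → ℝ) (S : F →ₗ[ℝ] (E ⧸ L))
    (hS : ∀ v, ∃ y, L.mkQ y = S v ∧ ‖y‖ ≤ C * ‖v‖)
    (h : ∀ ε, ‖ε‖ < r → ‖f (u₀ + ε)‖ ≤ M ∧ |ρ ε| ≤ M ∧ L.mkQ (f (u₀ + ε)) = ρ ε • S ε)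
    (ε : ℕ → F) (y : ℕ → E) (hε : ∀ n, ‖ε n‖ < r) (hy : ∀ n, S (ε n) = L.mkQ (y n))
    (hy0 : Tendsto y atTop (𝓝 0)) :
    ∃ (e : F) (ψ : ℕ → ℕ), StrictMono ψ ∧ Tendsto (ε ∘ ψ) atTop (𝓝 e) ∧ S e = 0 := by
  have hmem : ∀ n, f (u₀ + ε n) - ρ (ε n) • y n ∈ L := by
    intro n
    rw [← Submodule.Quotient.mk_eq_zero L]
    have h1 := (h (ε n) (hε n)).2.2
    have h2 : L.mkQ (f (u₀ + ε n) - ρ (ε n) • y n) = 0 := by
      rw [map_sub, map_smul, h1, hy n, sub_self]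
    exact h2
  have hM : ∀ n, |ρ (ε n)| ≤ M := fun n => (h (ε n) (hε n)).2.1
  have hM0 : 0 ≤ M := (abs_nonneg _).trans (hM 0)
  have hsm : Tendsto (fun n => ρ (ε n) • y n) atTop (𝓝 0) := by
    refine squeeze_zero_norm (a := fun n => M * ‖y n‖) (fun n => ?_) ?_
    · rw [norm_smul, Real.norm_eq_abs]
      exact mul_le_mul_of_nonneg_right (hM n) (norm_nonneg _)
    · have h1 := hy0.norm.const_mul M
      simpa using h1
  obtain ⟨K, hK⟩ : ∃ K, ∀ n, ‖ρ (ε n) • y n‖ ≤ K := by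
    obtain ⟨K, hK⟩ := (Metric.isBounded_range_of_tendsto _ hsm).exists_norm_le
    exact ⟨K, fun n => hK _ ⟨n, rfl⟩⟩
  let l : ℕ → L := fun n => ⟨f (u₀ + ε n) - ρ (ε n) • y n, hmem n⟩
  have hlb : ∀ n, l n ∈ Metric.closedBall (0 : L) (M + K) := by
    intro n
    rw [mem_closedBall_zero_iff]
    show ‖f (u₀ + ε n) - ρ (ε n) • y n‖ ≤ M + K
    exact (norm_sub_le _ _).trans (add_le_add (h (ε n) (hε n)).1 (hK n))
  have hproper : ProperSpace L := FiniteDimensional.proper_real L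
  obtain ⟨a, -, ψ, hψ, hlim⟩ := tendsto_subseq_of_bounded Metric.isBounded_closedBall hlb
  have hlim' : Tendsto (fun n => f (u₀ + ε (ψ n))) atTop (𝓝 (a : E)) := by
    have h1 : Tendsto (fun n => ((l (ψ n) : L) : E)) atTop (𝓝 (a : E)) :=
      (continuous_subtype_val.tendsto a).comp hlim
    have h2 : Tendsto (fun n => ρ (ε (ψ n)) • y (ψ n)) atTop (𝓝 0) :=
      hsm.comp hψ.tendsto_atTop
    have h3 := h1.add h2
    rw [add_zero] at h3
    refine h3.congr fun n => ?_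
    show (f (u₀ + ε (ψ n)) - ρ (ε (ψ n)) • y (ψ n)) + ρ (ε (ψ n)) • y (ψ n) = _
    abel
  have hε' : Tendsto (fun n => ε (ψ n)) atTop (𝓝 (f.symm (a : E) - u₀)) := by
    have h1 : Tendsto (fun n => f.symm (f (u₀ + ε (ψ n)))) atTop (𝓝 (f.symm (a : E))) :=
      (f.symm.continuous.tendsto _).comp hlim'
    simp only [Homeomorph.symm_apply_apply] at h1
    have h2 := h1.sub_const u₀
    refine h2.congr fun n => ?_
    abel
  refine ⟨f.symm (a : E) - u₀, ψ, hψ, hε', ?_⟩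
  set e : F := f.symm (a : E) - u₀ with he
  choose z hz using fun n => hS (e - ε (ψ n))
  have hz0 : Tendsto z atTop (𝓝 0) := by
    refine squeeze_zero_norm (a := fun n => C * ‖e - ε (ψ n)‖) (fun n => (hz n).2) ?_
    have h1 : Tendsto (fun n => e - ε (ψ n)) atTop (𝓝 (e - e)) := hε'.const_sub e
    have h2 := h1.norm.const_mul C
    simpa using h2
  have hx0 : Tendsto (fun n => z n + y (ψ n)) atTop (𝓝 0) := by
    have h1 := hz0.add (hy0.comp hψ.tendsto_atTop)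
    rw [add_zero] at h1
    exact h1
  have hx : ∀ n, L.mkQ (z n + y (ψ n)) = S e := by
    intro n
    rw [map_add, (hz n).1, ← hy (ψ n), ← map_add]
    congr 1
    abel
  have hclosed : IsClosed (L : Set E) := Submodule.closed_of_finiteDimensional L
  have hmem2 : ∀ n, (z n + y (ψ n)) - (z 0 + y (ψ 0)) ∈ (L : Set E) := by
    intro n
    show (z n + y (ψ n)) - (z 0 + y (ψ 0)) ∈ L
    rw [← Submodule.Quotient.mk_eq_zero L]
    have h2 : L.mkQ ((z n + y (ψ n)) - (z 0 + y (ψ 0))) = 0 := by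
      rw [map_sub, hx n, hx 0, sub_self]
    exact h2
  have hlim2 : Tendsto (fun n => (z n + y (ψ n)) - (z 0 + y (ψ 0))) atTop
      (𝓝 (0 - (z 0 + y (ψ 0)))) := hx0.sub_const _
  have hmem3 : 0 - (z 0 + y (ψ 0)) ∈ (L : Set E) :=
    hclosed.mem_of_tendsto hlim2 (Eventually.of_forall hmem2)
  have hmem4 : z 0 + y (ψ 0) ∈ L := by
    have h1 : 0 - (z 0 + y (ψ 0)) ∈ L := hmem3
    rw [zero_sub] at h1
    exact L.neg_mem_iff.mp h1
  rw [← hx 0]
  have h5 : L.mkQ (z 0 + y (ψ 0)) = Submodule.Quotient.mk (z 0 + y (ψ 0)) := rfl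
  rw [h5, Submodule.Quotient.mk_eq_zero]
  exact hmem4

end NSp
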