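import Pool.Agent.Helper97.NS.J_S_surj
import Pool.Agent.Helper97.NS.J_compact_conv

open Set Topology Filter

namespace NSp

theorem bdd_preimage {E F : Type*} [NormedAddCommGroup E] [NormedSpace ℝ E]
    [NormedAddCommGroup F] [NormedSpace ℝ F] (f : F ≃ₜ E) (L : Submodule ℝ E)
    (hL : FiniteDimensional ℝ L) (u₀ : F) (r M C : ℝ) (hr : 0 < r) (ρ : F → ℝ)
    (S : F →ₗ[ℝ] (E ⧸ L)) (hS : ∀ v, ∃ y, L.mkQ y = S v ∧ ‖y‖ ≤ C * ‖v‖)
    (h : ∀ ε, ‖ε‖ < r → ‖f (u₀ + ε)‖ ≤ M ∧ |ρ ε| ≤ M ∧ L.mkQ (f (u₀ + ε)) = ρ ε • S ε) :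
    ∃ K : ℝ, ∀ y : E, ∃ v : F, S v = L.mkQ y ∧ ‖v‖ ≤ K * ‖y‖ := by
  by_contra hcon
  push Not at hcon
  choose y hy using fun n : ℕ => hcon (n + 1 : ℝ)
  have hsurj := S_surj f L u₀ r hr ρ S (fun ε hε => (h ε hε).2.2)
  set D : ℕ → Set ℝ := fun n => norm '' {v : F | S v = L.mkQ (y n)} with hD
  have hDne : ∀ n, (D n).Nonempty := fun n => by
    obtain ⟨v, hv⟩ := hsurj (y n)
    exact ⟨‖v‖, v, hv, rfl⟩
  have hDbdd : ∀ n, BddBelow (D n) := fun n => ⟨0, by rintro _ ⟨v, _, rfl⟩; exact norm_nonneg v⟩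
  have hlow : ∀ n : ℕ, ((n : ℝ) + 1) * ‖y n‖ ≤ sInf (D n) := fun n => by
    apply le_csInf (hDne n)
    rintro _ ⟨v, hv, rfl⟩
    exact (hy n v hv).le
  have hypos : ∀ n, 0 < ‖y n‖ := fun n => by
    rcases (norm_nonneg (y n)).lt_or_eq with h1 | h1
    · exact h1
    · have h0 : y n = 0 := norm_eq_zero.1 h1.symm
      have := hy n 0 (by rw [h0, map_zero, map_zero])
      rw [h0] at this
      simp at this
  have hdpos : ∀ n, 0 < sInf (D n) := fun n => lt_of_lt_of_le (by have := hypos n; positivity) (hlow n)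
  have hv : ∀ n, ∃ v : F, S v = L.mkQ (y n) ∧ ‖v‖ < 2 * sInf (D n) := fun n => by
    have h1 : sInf (D n) < 2 * sInf (D n) := by linarith [hdpos n]
    obtain ⟨_, ⟨v, hv, rfl⟩, hlt⟩ := exists_lt_of_csInf_lt (hDne n) h1
    exact ⟨v, hv, hlt⟩
  choose v hvS hvlt using hv
  have hvge : ∀ n, sInf (D n) ≤ ‖v n‖ := fun n => csInf_le (hDbdd n) ⟨v n, hvS n, rfl⟩
  have hvpos : ∀ n, 0 < ‖v n‖ := fun n => (hdpos n).trans_le (hvge n)
  set t : ℕ → ℝ := fun n => (r / 2) / ‖v n‖ with ht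
  have htpos : ∀ n, 0 < t n := fun n => div_pos (by linarith) (hvpos n)
  have hnorm : ∀ n, ‖t n • v n‖ = r / 2 := fun n => by
    rw [norm_smul, Real.norm_eq_abs, abs_of_pos (htpos n), ht]
    exact div_mul_cancel₀ _ (hvpos n).ne'
  have hty : Tendsto (fun n => t n • y n) atTop (𝓝 0) := by
    rw [tendsto_zero_iff_norm_tendsto_zero]
    have hlim : Tendsto (fun n : ℕ => (r / 2) * (1 / ((n : ℝ) + 1))) atTop (𝓝 0) := by
      simpa using tendsto_one_div_add_atTop_nhds_zero_nat.const_mul (r / 2)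
    refine squeeze_zero (fun n => norm_nonneg _) (fun n => ?_) hlim
    rw [norm_smul, Real.norm_eq_abs, abs_of_pos (htpos n), ht]
    have h1 : ((n : ℝ) + 1) * ‖y n‖ ≤ ‖v n‖ := (hlow n).trans (hvge n)
    have h2 := hvpos n
    have h3 : (0 : ℝ) < (n : ℝ) + 1 := by positivity
    rw [div_mul_eq_mul_div, div_le_iff₀ h2, mul_assoc]
    apply mul_le_mul_of_nonneg_left _ (by linarith)
    rw [one_div, inv_mul_eq_div, le_div_iff₀ h3]
    linarith
  obtain ⟨e, ψ, hψ, hconv, he⟩ := compact_conv f L hL u₀ r M C ρ S hS h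
    (fun n => t n • v n) (fun n => t n • y n) (fun n => by rw [hnorm]; linarith)
    (fun n => by rw [map_smul, map_smul, hvS]) hty
  have hfar : ∀ n, r / 4 ≤ ‖t n • v n - e‖ := fun n => by
    have h1 : S ((t n)⁻¹ • (t n • v n - e)) = L.mkQ (y n) := by
      rw [map_smul, map_sub, he, sub_zero, map_smul, hvS, smul_smul,
        inv_mul_cancel₀ (htpos n).ne', one_smul]
    have h2 : sInf (D n) ≤ ‖(t n)⁻¹ • (t n • v n - e)‖ := csInf_le (hDbdd n) ⟨_, h1, rfl⟩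
    rw [norm_smul, norm_inv, Real.norm_eq_abs, abs_of_pos (htpos n)] at h2
    have h3 : t n * sInf (D n) ≤ ‖t n • v n - e‖ := by
      have := mul_le_mul_of_nonneg_left h2 (htpos n).le
      rwa [← mul_assoc, mul_inv_cancel₀ (htpos n).ne', one_mul] at this
    have h4 : t n * ‖v n‖ = r / 2 := by rw [ht]; exact div_mul_cancel₀ _ (hvpos n).ne'
    have h5 : t n * ‖v n‖ ≤ t n * (2 * sInf (D n)) :=
      mul_le_mul_of_nonneg_left (hvlt n).le (htpos n).le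
    nlinarith
  have h6 := (tendsto_iff_norm_sub_tendsto_zero.1 hconv)
  have h7 : r / 4 ≤ 0 := ge_of_tendsto h6 (Eventually.of_forall fun n => hfar (ψ n))
  linarith

end NSp
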