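import Pool.Agent.Helper97.NS.Defs

open Set Topology Filter

namespace NSp

theorem cantor_limit {X B : Type*} {ι : Type} [Fintype ι] [NormedAddCommGroup B]
    [NormedSpace ℝ B] [CompleteSpace B] (V : X → ι → B)
    (U : (n : ℕ) → (Fin n → Bool) → Set X) (hne : ∀ n s, (U n s).Nonempty)
    (hsub : ∀ n (s : Fin (n + 1) → Bool), U (n + 1) s ⊆ U n (fun i => s i.castSucc))
    (hdiam : ∀ n s, ∀ x ∈ U (n + 1) s, ∀ y ∈ U (n + 1) s, dist (V x) (V y) ≤ (1 / 2 : ℝ) ^ n)
    (hind : ∀ n (v : (Fin (n + 1) → Bool) → ι → B), (∀ s, v s ∈ closure (V '' U (n + 1) s)) →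
      LinearIndependent ℝ (fun a : (Fin (n + 1) → Bool) × ι => v a.1 a.2)) :
    ∃ φ : (ℕ → Bool) → ι → B, Continuous φ ∧
      LinearIndependent ℝ (fun a : (ℕ → Bool) × ι => φ a.1 a.2) ∧
      ∀ σ, φ σ ∈ closure (range V) := by
  classical
  let r : (n : ℕ) → (ℕ → Bool) → (Fin n → Bool) := fun n σ i => σ i
  choose x hx using hne
  have hmono : ∀ (σ : ℕ → Bool) (n k : ℕ), n ≤ k → U k (r k σ) ⊆ U n (r n σ) := by
    intro σ n k hnk
    induction k, hnk using Nat.le_induction with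
    | base => exact subset_rfl
    | succ k hk ih => exact (hsub k (r (k + 1) σ)).trans ih
  let a : (ℕ → Bool) → ℕ → (ι → B) := fun σ n => V (x n (r n σ))
  have hxm : ∀ (σ : ℕ → Bool) (n k : ℕ), n ≤ k → x k (r k σ) ∈ U n (r n σ) :=
    fun σ n k hnk => hmono σ n k hnk (hx k (r k σ))
  have hcau : ∀ σ, CauchySeq (a σ) := by
    intro σ
    rw [Metric.cauchySeq_iff']
    intro ε hε
    obtain ⟨n, hn⟩ := exists_pow_lt_of_lt_one hε (by norm_num : (1 / 2 : ℝ) < 1)
    refine ⟨n + 1, fun k hk => ?_⟩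
    exact (hdiam n _ _ (hxm σ (n + 1) k hk) _ (hxm σ (n + 1) (n + 1) le_rfl)).trans_lt hn
  choose φ hφ using fun σ => cauchySeq_tendsto_of_complete (hcau σ)
  have hcl : ∀ (σ : ℕ → Bool) (n : ℕ), φ σ ∈ closure (V '' U (n + 1) (r (n + 1) σ)) := by
    intro σ n
    refine mem_closure_of_tendsto (hφ σ) ?_
    filter_upwards [eventually_ge_atTop (n + 1)] with k hk
    exact ⟨_, hxm σ (n + 1) k hk, rfl⟩
  have hdist : ∀ (n : ℕ) (s : Fin (n + 1) → Bool) (p q : ι → B), p ∈ closure (V '' U (n + 1) s) →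
      q ∈ closure (V '' U (n + 1) s) → dist p q ≤ (1 / 2 : ℝ) ^ n := by
    intro n s p q hp hq
    have h1 : ∀ p ∈ V '' U (n + 1) s, ∀ q ∈ closure (V '' U (n + 1) s), dist q p ≤ (1 / 2 : ℝ) ^ n := by
      rintro _ ⟨y, hy, rfl⟩ q hq
      have h2 : closure (V '' U (n + 1) s) ⊆ Metric.closedBall (V y) ((1 / 2 : ℝ) ^ n) := by
        refine closure_minimal ?_ Metric.isClosed_closedBall
        rintro _ ⟨z, hz, rfl⟩
        exact hdiam n s z hz y hy
      exact h2 hq
    have h3 : closure (V '' U (n + 1) s) ⊆ Metric.closedBall q ((1 / 2 : ℝ) ^ n) := by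
      refine closure_minimal ?_ Metric.isClosed_closedBall
      intro p hp
      rw [Metric.mem_closedBall, dist_comm]
      exact h1 p hp q hq
    exact h3 hp
  refine ⟨φ, ?_, ?_, ?_⟩
  · rw [continuous_iff_continuousAt]
    intro σ
    rw [ContinuousAt, Metric.tendsto_nhds]
    intro ε hε
    obtain ⟨n, hn⟩ := exists_pow_lt_of_lt_one hε (by norm_num : (1 / 2 : ℝ) < 1)
    have hrc : Continuous (r (n + 1)) := by
      refine continuous_pi fun i => ?_
      exact continuous_apply (i : ℕ)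
    have hev : ∀ᶠ σ' in 𝓝 σ, r (n + 1) σ' = r (n + 1) σ :=
      hrc.continuousAt.eventually ((isOpen_discrete {r (n + 1) σ}).mem_nhds rfl)
    filter_upwards [hev] with σ' hσ'
    refine (hdist n (r (n + 1) σ) _ _ ?_ (hcl σ n)).trans_lt hn
    rw [← hσ']
    exact hcl σ' n
  · rw [linearIndependent_iff_finset_linearIndependent]
    intro S
    let T : Finset (ℕ → Bool) := S.image Prod.fst
    obtain ⟨n, hn⟩ : ∃ n : ℕ, ∀ σ ∈ T, ∀ τ ∈ T, r (n + 1) σ = r (n + 1) τ → σ = τ := by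
      have h1 : ∀ᶠ n : ℕ in atTop, ∀ σ ∈ T, ∀ τ ∈ T, r (n + 1) σ = r (n + 1) τ → σ = τ := by
        rw [Filter.eventually_all_finset]
        intro σ _
        rw [Filter.eventually_all_finset]
        intro τ _
        by_cases hστ : σ = τ
        · exact Filter.Eventually.of_forall fun n _ => hστ
        · obtain ⟨i, hi⟩ := Function.ne_iff.1 hστ
          filter_upwards [eventually_ge_atTop i] with n hin hr
          exact absurd (congrFun hr ⟨i, by omega⟩) hi
      exact h1.exists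
    let v : (Fin (n + 1) → Bool) → ι → B := fun s =>
      if h : ∃ σ, σ ∈ T ∧ r (n + 1) σ = s then φ h.choose else V (x (n + 1) s)
    have hv : ∀ s, v s ∈ closure (V '' U (n + 1) s) := by
      intro s
      by_cases h : ∃ σ, σ ∈ T ∧ r (n + 1) σ = s
      · have h1 : v s = φ h.choose := dif_pos h
        rw [h1]
        have h2 := hcl h.choose n
        rw [h.choose_spec.2] at h2
        exact h2
      · have h1 : v s = V (x (n + 1) s) := dif_neg h
        rw [h1]
        exact subset_closure ⟨_, hx _ _, rfl⟩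
    have hvφ : ∀ σ ∈ T, v (r (n + 1) σ) = φ σ := by
      intro σ hσ
      have h : ∃ τ, τ ∈ T ∧ r (n + 1) τ = r (n + 1) σ := ⟨σ, hσ, rfl⟩
      have h1 : v (r (n + 1) σ) = φ h.choose := dif_pos h
      rw [h1, hn _ h.choose_spec.1 _ hσ h.choose_spec.2]
    have hli := hind n v hv
    have hST : ∀ p : S, p.1.1 ∈ T := fun p => Finset.mem_image_of_mem _ p.2
    let e : S → (Fin (n + 1) → Bool) × ι := fun p => (r (n + 1) p.1.1, p.1.2)
    have he : Function.Injective e := by
      intro p q hpq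
      have h1 : r (n + 1) p.1.1 = r (n + 1) q.1.1 := (Prod.ext_iff.1 hpq).1
      have h2 : p.1.2 = q.1.2 := (Prod.ext_iff.1 hpq).2
      exact Subtype.ext (Prod.ext (hn _ (hST p) _ (hST q) h1) h2)
    have h3 := hli.comp e he
    have h4 : ((fun a : (Fin (n + 1) → Bool) × ι => v a.1 a.2) ∘ e) =
        ((fun a : (ℕ → Bool) × ι => φ a.1 a.2) ∘ (Subtype.val : S → (ℕ → Bool) × ι)) := by
      funext p
      show v (r (n + 1) p.1.1) p.1.2 = φ p.1.1 p.1.2
      rw [hvφ _ (hST p)]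
    rw [h4] at h3
    exact h3
  · intro σ
    exact closure_mono (image_subset_range V _) (hcl σ 0)

end NSp
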