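import Pool.Agent.Helper97.NS.Defs

open Set Topology Filter

namespace NSp

theorem robust {B : Type*} [NormedAddCommGroup B] [NormedSpace ℝ B] {J ι : Type} [Fintype J]
    [Fintype ι] (v : J → ι → B) (hv : LinearIndependent ℝ (fun a : J × ι => v a.1 a.2)) :
    ∃ ε > 0, ∀ v' : J → ι → B, (∀ j, dist (v' j) (v j) ≤ ε) →
      LinearIndependent ℝ (fun a : J × ι => v' a.1 a.2) := by
  have hopen : IsOpen {w : J × ι → B | LinearIndependent ℝ w} := isOpen_setOfPred_linearIndependent
  obtain ⟨δ, hδ, hball⟩ := Metric.isOpen_iff.1 hopen (fun a : J × ι => v a.1 a.2) hv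
  refine ⟨δ / 2, by linarith, ?_⟩
  intro v' hv'
  apply hball
  rw [Metric.mem_ball]
  refine lt_of_le_of_lt ?_ (by linarith : δ / 2 < δ)
  rw [dist_pi_le_iff (by linarith)]
  intro a
  exact (dist_le_pi_dist (v' a.1) (v a.1) a.2).trans (hv' a.1)

end NSp
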