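import Pool.Agent.Helper97.NS.Defs
import Pool.Agent.Helper97.NS.J_robust

open Set Topology Filter

namespace NSp

theorem cantor_step {X B : Type*} {ι : Type} [Fintype ι] [TopologicalSpace X]
    [NormedAddCommGroup B] [NormedSpace ℝ B] (V : X → ι → B) (hV : Continuous V) (N : Set X)
    (H : ∀ (n : ℕ) (U : (Fin n → Bool) → Set X),
      (∀ s, IsOpen (U s) ∧ (U s).Nonempty ∧ U s ⊆ N) →
      ∃ q : (Fin n → Bool) → X, (∀ s, q s ∈ U s) ∧
        LinearIndependent ℝ (fun a : (Fin n → Bool) × ι => V (q a.1) a.2))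
    (n : ℕ) (U : (Fin n → Bool) → Set X) (hU : ∀ s, IsOpen (U s) ∧ (U s).Nonempty ∧ U s ⊆ N)
    (ε : ℝ) (hε : 0 < ε) :
    ∃ U' : (Fin (n + 1) → Bool) → Set X,
      (∀ s, IsOpen (U' s) ∧ (U' s).Nonempty ∧ U' s ⊆ N) ∧
      (∀ s, U' s ⊆ U (fun i => s i.castSucc)) ∧
      (∀ s, ∀ x ∈ U' s, ∀ y ∈ U' s, dist (V x) (V y) ≤ ε) ∧
      (∀ v : (Fin (n + 1) → Bool) → ι → B, (∀ s, v s ∈ closure (V '' U' s)) →
        LinearIndependent ℝ (fun a : (Fin (n + 1) → Bool) × ι => v a.1 a.2)) := by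
  obtain ⟨q, hq, hlin⟩ := H (n + 1) (fun s => U (fun i => s i.castSucc)) (fun s => hU _)
  obtain ⟨ε', hε', hrob⟩ := robust (fun s => V (q s)) hlin
  set δ := min (ε / 2) ε' with hδ
  have hδ0 : 0 < δ := lt_min (by linarith) hε'
  refine ⟨fun s => U (fun i => s i.castSucc) ∩ V ⁻¹' Metric.ball (V (q s)) δ, ?_, ?_, ?_, ?_⟩
  · intro s
    refine ⟨(hU _).1.inter (Metric.isOpen_ball.preimage hV), ⟨q s, hq s, ?_⟩, ?_⟩
    · exact Metric.mem_ball_self hδ0
    · exact fun x hx => (hU _).2.2 hx.1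
  · intro s x hx
    exact hx.1
  · intro s x hx y hy
    have h1 : dist (V x) (V (q s)) < δ := hx.2
    have h2 : dist (V y) (V (q s)) < δ := hy.2
    have h3 := dist_triangle_right (V x) (V y) (V (q s))
    have h4 : δ ≤ ε / 2 := min_le_left _ _
    linarith
  · intro v hv
    refine hrob v fun s => ?_
    have h1 : closure (V '' (U (fun i => s i.castSucc) ∩ V ⁻¹' Metric.ball (V (q s)) δ)) ⊆
        Metric.closedBall (V (q s)) δ := by
      refine closure_minimal ?_ Metric.isClosed_closedBall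
      rintro _ ⟨x, hx, rfl⟩
      exact Metric.ball_subset_closedBall hx.2
    exact (Metric.mem_closedBall.1 (h1 (hv s))).trans (min_le_right _ _)

end NSp
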