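import Pool.Agent.Helper97.NS.Defs
import Pool.Agent.Helper97.NS.J_cantor_step
import Pool.Agent.Helper97.NS.J_cantor_limit

open Set Topology Filter

namespace NSp

theorem cantor {X B : Type*} {ι : Type} [Fintype ι] [TopologicalSpace X]
    [NormedAddCommGroup B] [NormedSpace ℝ B] [CompleteSpace B] (V : X → ι → B)
    (hV : Continuous V) (N : Set X) (hN : IsOpen N) (hNn : N.Nonempty)
    (H : ∀ (n : ℕ) (U : (Fin n → Bool) → Set X),
      (∀ s, IsOpen (U s) ∧ (U s).Nonempty ∧ U s ⊆ N) →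
      ∃ q : (Fin n → Bool) → X, (∀ s, q s ∈ U s) ∧
        LinearIndependent ℝ (fun a : (Fin n → Bool) × ι => V (q a.1) a.2)) :
    ∃ φ : (ℕ → Bool) → ι → B, Continuous φ ∧
      LinearIndependent ℝ (fun a : (ℕ → Bool) × ι => φ a.1 a.2) ∧
      ∀ σ, φ σ ∈ closure (range V) := by
  have hpos : ∀ n : ℕ, (0 : ℝ) < (1 / 2 : ℝ) ^ n := fun n => by positivity
  let T : (n : ℕ) → {U : (Fin n → Bool) → Set X // ∀ s, IsOpen (U s) ∧ (U s).Nonempty ∧ U s ⊆ N} :=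
    fun n => Nat.rec (motive := fun n =>
        {U : (Fin n → Bool) → Set X // ∀ s, IsOpen (U s) ∧ (U s).Nonempty ∧ U s ⊆ N})
      ⟨fun _ => N, fun _ => ⟨hN, hNn, Subset.rfl⟩⟩
      (fun n U => ⟨Classical.choose (cantor_step V hV N H n U.1 U.2 ((1 / 2 : ℝ) ^ n) (hpos n)),
        (Classical.choose_spec
          (cantor_step V hV N H n U.1 U.2 ((1 / 2 : ℝ) ^ n) (hpos n))).1⟩) n
  have hT : ∀ n, (∀ s, (T (n + 1)).1 s ⊆ (T n).1 (fun i => s i.castSucc)) ∧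
      (∀ s, ∀ x ∈ (T (n + 1)).1 s, ∀ y ∈ (T (n + 1)).1 s, dist (V x) (V y) ≤ (1 / 2 : ℝ) ^ n) ∧
      (∀ v : (Fin (n + 1) → Bool) → ι → B, (∀ s, v s ∈ closure (V '' (T (n + 1)).1 s)) →
        LinearIndependent ℝ (fun a : (Fin (n + 1) → Bool) × ι => v a.1 a.2)) := fun n =>
    (Classical.choose_spec
      (cantor_step V hV N H n (T n).1 (T n).2 ((1 / 2 : ℝ) ^ n) (hpos n))).2
  exact cantor_limit V (fun n => (T n).1) (fun n s => ((T n).2 s).2.1) (fun n s => (hT n).1 s)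
    (fun n s => (hT n).2.1 s) (fun n v => (hT n).2.2 v)

end NSp
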