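import Pool.Agent.Helper97.NS.Defs

open Set Topology Filter

namespace NSp

theorem card_cont {B : Type} [NormedAddCommGroup B] (hB : Cardinal.mk B ≤ Cardinal.continuum) :
    Cardinal.mk {φ : (ℕ → Bool) → Fin 3 → B // Continuous φ} ≤ Cardinal.continuum := by
  
  have hinj : Function.Injective (fun φ : {φ : (ℕ → Bool) → Fin 3 → B // Continuous φ} =>
      φ.1 ∘ TopologicalSpace.denseSeq (ℕ → Bool)) := by
    intro φ ψ h
    apply Subtype.ext
    exact (TopologicalSpace.denseRange_denseSeq (ℕ → Bool)).equalizer φ.2 ψ.2 h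
  refine (Cardinal.mk_le_of_injective hinj).trans ?_
  rw [← Cardinal.power_def, ← Cardinal.power_def, ← Cardinal.power_mul]
  refine (Cardinal.power_le_power_right hB).trans ?_
  have h3 : Cardinal.mk (Fin 3) * Cardinal.mk ℕ = Cardinal.aleph0 := by
    rw [Cardinal.mk_fin, Cardinal.mk_nat]
    exact Cardinal.nat_mul_aleph0 (by norm_num)
  rw [h3, Cardinal.continuum_power_aleph0]


end NSp
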