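import Pool.Agent.Helper97.NS.Defs

open Set Topology Filter

namespace NSp

theorem card_l1 : Cardinal.mk L1 ≤ Cardinal.continuum := by
  have hinj : Function.Injective (fun x : L1 => (x : ℕ → ℝ)) := by
    intro x y h
    exact lp.ext h
  refine (Cardinal.mk_le_of_injective hinj).trans ?_
  have h : Cardinal.mk (ℕ → ℝ) = Cardinal.continuum := by
    simp [Cardinal.mk_real]
  exact h.le

end NSp
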