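import Pool.Agent.Helper97.NS.Defs

open Set Topology Filter

namespace NSp

theorem choose_triple {B : Type} [AddCommGroup B] [Module ℝ B] {P : Type} (φ : P → Fin 3 → B)
    (hφ : LinearIndependent ℝ (fun q : P × Fin 3 => φ q.1 q.2)) (W : Submodule ℝ B)
    (hW : Module.rank ℝ W < Cardinal.mk P) :
    ∃ p, ∀ c : Fin 3 → ℝ, ∑ k, c k • φ p k ∈ W → c = 0 := by
  classical
  by_contra hcon
  push Not at hcon
  choose c hc hc0 using hcon
  let w : P → W := fun p => ⟨∑ k, c p k • φ p k, hc p⟩
  have hw : LinearIndependent ℝ w := by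
    rw [linearIndependent_iff']
    intro s g hg i hi
    have h1 : ∑ p ∈ s, g p • (∑ k, c p k • φ p k) = 0 := by
      have := congrArg (fun x : W => (x : B)) hg
      simpa [w] using this
    have h2 : ∑ q ∈ s ×ˢ (Finset.univ : Finset (Fin 3)), (g q.1 * c q.1 q.2) • φ q.1 q.2 = 0 := by
      rw [Finset.sum_product]
      rw [← h1]
      refine Finset.sum_congr rfl fun p _ => ?_
      rw [Finset.smul_sum]
      refine Finset.sum_congr rfl fun k _ => ?_
      rw [mul_smul]
    have h3 := (linearIndependent_iff'.mp hφ) (s ×ˢ (Finset.univ : Finset (Fin 3)))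
      (fun q => g q.1 * c q.1 q.2) h2
    obtain ⟨k, hk⟩ : ∃ k, c i k ≠ 0 := by
      by_contra hno
      push Not at hno
      exact hc0 i (funext hno)
    have h4 := h3 (i, k) (by simp [hi])
    simp only at h4
    rcases mul_eq_zero.mp h4 with h | h
    · exact h
    · exact absurd h hk
  have h5 : Cardinal.mk P ≤ Module.rank ℝ W := hw.cardinal_le_rank
  exact absurd hW (not_lt.mpr h5)

end NSp
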