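import Pool.Agent.Helper97.NS.Defs

open Set Topology Filter

namespace NSp

theorem gen_alg {B I : Type} [AddCommGroup B] [Module ℝ B] [LinearOrder I] (ψ : I → Fin 3 → B)
    (E0 : Submodule ℝ B)
    (h : ∀ i (c : Fin 3 → ℝ),
      ∑ k, c k • ψ i k ∈ E0 ⊔ Submodule.span ℝ {v | ∃ j < i, ∃ k, v = ψ j k} → c = 0) (i : I) :
    ψ i 2 ∉ E0 ⊔ Submodule.span ℝ {v | ∃ j, v = ψ j 0 ∨ v = ψ j 1} := by
  classical
  -- the finite claim
  have hW : ∀ (s : Finset I) (j : I), (∀ x ∈ s, x < j) →
      E0 ⊔ Submodule.span ℝ {v | ∃ x ∈ s, v = ψ x 0 ∨ v = ψ x 1} ≤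
        E0 ⊔ Submodule.span ℝ {v | ∃ x < j, ∃ k, v = ψ x k} := by
    intro s j hs
    apply sup_le_sup_left
    apply Submodule.span_mono
    rintro v ⟨x, hx, hv | hv⟩
    · exact ⟨x, hs x hx, 0, hv⟩
    · exact ⟨x, hs x hx, 1, hv⟩
  have hself : ∀ j, ψ j 2 ∉ E0 ⊔ Submodule.span ℝ {v | ∃ x < j, ∃ k, v = ψ x k} := by
    intro j hj
    have h1 := h j ![0, 0, 1] (by
      rw [Fin.sum_univ_three]
      simpa using hj)
    have h2 := congrFun h1 2
    simp at h2
  have claim : ∀ s : Finset I,
      ψ i 2 ∉ E0 ⊔ Submodule.span ℝ {v | ∃ x ∈ s, v = ψ x 0 ∨ v = ψ x 1} := by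
    intro s
    induction s using Finset.induction_on_max with
    | empty =>
      intro hc
      exact hself i (hW ∅ i (by simp) hc)
    | insert a s hs ih =>
      intro hc
      have hle : Submodule.span ℝ {v | ∃ x ∈ insert a s, v = ψ x 0 ∨ v = ψ x 1} ≤
          Submodule.span ℝ {v | ∃ x ∈ s, v = ψ x 0 ∨ v = ψ x 1} ⊔
            Submodule.span ℝ {ψ a 0, ψ a 1} := by
        rw [Submodule.span_le]
        rintro v ⟨x, hx, hv⟩
        rw [Finset.mem_insert] at hx
        rcases hx with hx | hx
        · subst hx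
          apply Submodule.mem_sup_right
          apply Submodule.subset_span
          rcases hv with hv | hv
          · rw [hv]; exact Or.inl rfl
          · rw [hv]; exact Or.inr rfl
        · apply Submodule.mem_sup_left
          exact Submodule.subset_span ⟨x, hx, hv⟩
      have hc2 : ψ i 2 ∈ (E0 ⊔ Submodule.span ℝ {v | ∃ x ∈ s, v = ψ x 0 ∨ v = ψ x 1}) ⊔
            Submodule.span ℝ {ψ a 0, ψ a 1} := by
        rw [sup_assoc]
        exact sup_le_sup_left hle E0 hc
      obtain ⟨v, hv, w, hw, hvw⟩ := Submodule.mem_sup.mp hc2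
      obtain ⟨α, β, hαβ⟩ := Submodule.mem_span_pair.mp hw
      rcases lt_trichotomy i a with hia | hia | hia
      · -- i < a
        have hvW := hW s a hs hv
        have hiW : ψ i 2 ∈ E0 ⊔ Submodule.span ℝ {v | ∃ x < a, ∃ k, v = ψ x k} :=
          Submodule.mem_sup_right (Submodule.subset_span ⟨i, hia, 2, rfl⟩)
        have hwW : w ∈ E0 ⊔ Submodule.span ℝ {v | ∃ x < a, ∃ k, v = ψ x k} := by
          have : w = ψ i 2 - v := by rw [← hvw]; abel
          rw [this]
          exact Submodule.sub_mem _ hiW hvW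
        have h1 := h a ![α, β, 0] (by
          rw [Fin.sum_univ_three]
          have e : (![α, β, 0] : Fin 3 → ℝ) 0 • ψ a 0 + (![α, β, 0] : Fin 3 → ℝ) 1 • ψ a 1 +
              (![α, β, 0] : Fin 3 → ℝ) 2 • ψ a 2 = w := by
            rw [← hαβ]
            simp
          rw [e]
          exact hwW)
        have hα : α = 0 := by simpa using congrFun h1 0
        have hβ : β = 0 := by simpa using congrFun h1 1
        apply ih
        rw [← hvw, ← hαβ, hα, hβ, zero_smul, zero_smul, add_zero, add_zero]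
        exact hv
      · -- i = a
        subst hia
        have hvW := hW s i hs hv
        have h1 := h i ![-α, -β, 1] (by
          rw [Fin.sum_univ_three]
          have e : (![-α, -β, 1] : Fin 3 → ℝ) 0 • ψ i 0 + (![-α, -β, 1] : Fin 3 → ℝ) 1 • ψ i 1 +
              (![-α, -β, 1] : Fin 3 → ℝ) 2 • ψ i 2 = v := by
            have e1 : v = ψ i 2 - (α • ψ i 0 + β • ψ i 1) := by
              rw [hαβ, ← hvw]; abel
            rw [e1]
            show (-α) • ψ i 0 + (-β) • ψ i 1 + (1:ℝ) • ψ i 2 = _
            rw [neg_smul, neg_smul, one_smul]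
            abel
          rw [e]
          exact hvW)
        have h2 := congrFun h1 2
        simp at h2
      · -- a < i
        apply hself i
        apply hW (insert a s) i _ hc
        intro x hx
        rw [Finset.mem_insert] at hx
        rcases hx with hx | hx
        · rw [hx]; exact hia
        · exact lt_trans (hs x hx) hia
  intro hc
  obtain ⟨e, he, w, hw, hew⟩ := Submodule.mem_sup.mp hc
  obtain ⟨T, hT, hwT⟩ := Submodule.mem_span_finite_of_mem_span hw
  have hch : ∀ v : B, ∃ x : I, v ∈ T → (v = ψ x 0 ∨ v = ψ x 1) := by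
    intro v
    by_cases hv : v ∈ T
    · obtain ⟨x, hx⟩ := hT hv
      exact ⟨x, fun _ => hx⟩
    · exact ⟨i, fun h' => absurd h' hv⟩
  choose g hg using hch
  apply claim (T.image g)
  rw [← hew]
  apply Submodule.add_mem
  · exact Submodule.mem_sup_left he
  · apply Submodule.mem_sup_right
    refine Submodule.span_mono ?_ hwT
    intro v hv
    exact ⟨g v, Finset.mem_image_of_mem g hv, hg v hv⟩

end NSp
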