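import Pool.Agent.Helper97.NS.Defs

open Set Topology Filter

namespace NSp

theorem gen_choice {B P I : Type} [AddCommGroup B] [Module ℝ B]
    (hI : Cardinal.mk I ≤ Cardinal.continuum) (φ : I → P → Fin 3 → B)
    (hch : ∀ i (W : Submodule ℝ B), Module.rank ℝ W < Cardinal.continuum →
      ∃ p, ∀ c : Fin 3 → ℝ, ∑ k, c k • φ i p k ∈ W → c = 0)
    (E0 : Submodule ℝ B) (h0 : Module.rank ℝ E0 < Cardinal.continuum) :
    ∃ (_ : LinearOrder I) (p : I → P), ∀ i (c : Fin 3 → ℝ),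
      ∑ k, c k • φ i (p i) k ∈ E0 ⊔ Submodule.span ℝ {v | ∃ j < i, ∃ k, v = φ j (p j) k} →
        c = 0 := by
  obtain ⟨lo, wf, hord⟩ := Cardinal.exists_ord_eq_type_lt I
  have hlem : ∀ (i : I) (g : (j : I) → j < i → P),
      Module.rank ℝ ↥(E0 ⊔ Submodule.span ℝ {v | ∃ j, ∃ hj : j < i, ∃ k, v = φ j (g j hj) k}) <
        Cardinal.continuum := by
    intro i g
    have h1 : Cardinal.mk (Set.Iio i) < Cardinal.continuum :=
      (Cardinal.mk_Iio_lt i hord).trans_le hI
    have h2 : Cardinal.mk {v | ∃ j, ∃ hj : j < i, ∃ k, v = φ j (g j hj) k} <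
        Cardinal.continuum := by
      have h3 : {v | ∃ j, ∃ hj : j < i, ∃ k, v = φ j (g j hj) k} =
          Set.range (fun q : Set.Iio i × Fin 3 => φ q.1.1 (g q.1.1 q.1.2) q.2) := by
        ext v
        constructor
        · rintro ⟨j, hj, k, rfl⟩
          exact ⟨(⟨j, hj⟩, k), rfl⟩
        · rintro ⟨⟨⟨j, hj⟩, k⟩, rfl⟩
          exact ⟨j, hj, k, rfl⟩
      rw [h3]
      refine Cardinal.mk_range_le.trans_lt ?_
      rw [Cardinal.mk_prod, Cardinal.lift_id, Cardinal.lift_id]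
      refine Cardinal.mul_lt_of_lt Cardinal.aleph0_le_continuum h1 ?_
      exact (Cardinal.lt_aleph0_of_finite (Fin 3)).trans_le Cardinal.aleph0_le_continuum
    refine (Submodule.rank_add_le_rank_add_rank _ _).trans_lt ?_
    exact Cardinal.add_lt_of_lt Cardinal.aleph0_le_continuum h0 ((rank_span_le _).trans_lt h2)
  let F : (i : I) → ((j : I) → j < i → P) → P := fun i g => (hch i _ (hlem i g)).choose
  let p : I → P := (wellFounded_lt (α := I)).fix F
  have hp : ∀ i, p i = F i (fun j _ => p j) := fun i => (wellFounded_lt (α := I)).fix_eq F i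
  refine ⟨lo, p, fun i c hc => ?_⟩
  have hspec := (hch i _ (hlem i (fun j _ => p j))).choose_spec c
  apply hspec
  rw [hp i] at hc
  have he : {v | ∃ j, ∃ _ : j < i, ∃ k, v = φ j (p j) k} = {v | ∃ j < i, ∃ k, v = φ j (p j) k} := by
    simp only [exists_prop]
  have hc' : ∑ k, c k • φ i (F i fun j _ => p j) k ∈
      E0 ⊔ Submodule.span ℝ {v | ∃ j, ∃ _ : j < i, ∃ k, v = φ j (p j) k} := by
    rw [he]; exact hc
  exact hc'

end NSp
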