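import Pool.Agent.Helper97.NS.Defs
import Pool.Agent.Helper97.NS.J_card_cont
import Pool.Agent.Helper97.NS.J_choose_triple
import Pool.Agent.Helper97.NS.J_gen_choice
import Pool.Agent.Helper97.NS.J_gen_alg

open Set Topology Filter

namespace NSp

theorem exists_gen {B : Type} [NormedAddCommGroup B] [NormedSpace ℝ B]
    (hB : Cardinal.mk B ≤ Cardinal.continuum) (E0 : Submodule ℝ B)
    (h0 : Module.rank ℝ E0 < Cardinal.continuum) :
    ∃ E : Submodule ℝ B, E0 ≤ E ∧ Gen E := by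
  let I : Type := {φ : (ℕ → Bool) → Fin 3 → B // Continuous φ ∧
    LinearIndependent ℝ (fun q : (ℕ → Bool) × Fin 3 => φ q.1 q.2)}
  have hI : Cardinal.mk I ≤ Cardinal.continuum := by
    refine le_trans ?_ (card_cont hB)
    exact Cardinal.mk_le_of_injective
      (f := fun i : I => (⟨i.1, i.2.1⟩ : {φ : (ℕ → Bool) → Fin 3 → B // Continuous φ}))
      (fun i j hij => Subtype.ext (Subtype.mk.inj hij))
  have hP : Cardinal.mk (ℕ → Bool) = Cardinal.continuum := by
    simp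
  obtain ⟨hord, p, hp⟩ := gen_choice (I := I) (P := ℕ → Bool) hI (fun i => i.1)
    (fun i W hW => choose_triple i.1 i.2.2 W (by rw [hP]; exact hW)) E0 h0
  refine ⟨E0 ⊔ Submodule.span ℝ {v | ∃ j : I, v = j.1 (p j) 0 ∨ v = j.1 (p j) 1}, le_sup_left, ?_⟩
  intro φ hφ hli
  let i : I := ⟨φ, hφ, hli⟩
  refine ⟨p i, ?_, ?_, ?_⟩
  · exact Submodule.mem_sup_right (Submodule.subset_span ⟨i, Or.inl rfl⟩)
  · exact Submodule.mem_sup_right (Submodule.subset_span ⟨i, Or.inr rfl⟩)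
  · exact gen_alg (fun j : I => j.1 (p j)) E0 hp i

end NSp
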