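import Pool.Agent.Helper97.NS.Defs
import Pool.Agent.Helper97.NS.J_open_avoid
import Pool.Agent.Helper97.NS.J_ind_open

open Set Topology Filter

namespace NSp

theorem fd_sup {E : Type*} [NormedAddCommGroup E] [NormedSpace ℝ E]
    (L : Submodule ℝ E) (hL : FiniteDimensional ℝ L) (x y : E) :
    FiniteDimensional ℝ ↥(L ⊔ Submodule.span ℝ {x, y}) := by
  haveI := hL
  haveI : FiniteDimensional ℝ (Submodule.span ℝ ({x, y} : Set E)) :=
    FiniteDimensional.span_of_finite ℝ (Set.toFinite _)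
  infer_instance

theorem mem_of_comb {E : Type*} [NormedAddCommGroup E] [NormedSpace ℝ E]
    (L : Submodule ℝ E) (x y z : E) (a b c : ℝ) (hc : c ≠ 0)
    (h : a • x + b • y + c • z ∈ L) : z ∈ L ⊔ Submodule.span ℝ {x, y} := by
  have e : z = c⁻¹ • (a • x + b • y + c • z) + (-(c⁻¹ * a) • x + -(c⁻¹ * b) • y) := by
    have h1 : c⁻¹ * c = 1 := inv_mul_cancel₀ hc
    simp only [smul_add, smul_smul, h1, one_smul, neg_smul]
    abel
  rw [e]
  refine Submodule.add_mem_sup (L.smul_mem _ h) ?_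
  refine Submodule.add_mem _ (Submodule.smul_mem _ _ (Submodule.subset_span (by simp)))
    (Submodule.smul_mem _ _ (Submodule.subset_span (by simp)))

theorem gen_one {E : Type*} [NormedAddCommGroup E] [NormedSpace ℝ E]
    (hE : ¬ FiniteDimensional ℝ E) (m : E × E → E) (N : Set (E × E))
    (hfail : ∀ O ⊆ N, IsOpen O → O.Nonempty → ∀ L : Submodule ℝ E, FiniteDimensional ℝ L →
      ∃ q ∈ O, m q ∉ L ⊔ Submodule.span ℝ {q.1, q.2})
    (O : Set (E × E)) (hO : O ⊆ N) (hOo : IsOpen O) (hOn : O.Nonempty) (L : Submodule ℝ E)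
    (hL : FiniteDimensional ℝ L) : ∃ q ∈ O, Ind L q.1 q.2 (m q) := by
  obtain ⟨⟨x0, y0⟩, h0⟩ := hOn
  obtain ⟨U, V, hU, hV, hxU, hyV, hUV⟩ := isOpen_prod_iff.1 hOo x0 y0 h0
  obtain ⟨x, hx, hxL⟩ := open_avoid hE L hL U hU ⟨x0, hxU⟩
  obtain ⟨y, hy, hyL⟩ := open_avoid hE (L ⊔ Submodule.span ℝ {x, x}) (fd_sup L hL x x) V hV ⟨y0, hyV⟩
  obtain ⟨z, -, hzL⟩ := open_avoid hE (L ⊔ Submodule.span ℝ {x, y}) (fd_sup L hL x y) univ isOpen_univ
    ⟨0, mem_univ _⟩
  have hind : Ind L x y z := by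
    intro a b c h
    have hc : c = 0 := by
      by_contra hc
      exact hzL (mem_of_comb L x y z a b c hc h)
    subst hc
    simp only [zero_smul, add_zero] at h
    have hb : b = 0 := by
      by_contra hb
      refine hyL (mem_of_comb L x x y a 0 b hb ?_)
      simpa using h
    subst hb
    simp only [zero_smul, add_zero] at h
    have ha : a = 0 := by
      by_contra ha
      refine hxL ?_
      have := L.smul_mem a⁻¹ h
      rwa [smul_smul, inv_mul_cancel₀ ha, one_smul] at this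
    exact ⟨ha, rfl, rfl⟩
  let O' : Set (E × E) := {q | q ∈ O ∧ Ind L q.1 q.2 z}
  have hO'o : IsOpen O' := by
    have hc : Continuous (fun q : E × E => ((q.1, q.2, z) : E × E × E)) := by fun_prop
    exact hOo.inter ((ind_open L hL).preimage hc)
  obtain ⟨q, hq, hm⟩ := hfail O' (fun q hq => hO hq.1) hO'o ⟨(x, y), hUV ⟨hx, hy⟩, hind⟩ L hL
  refine ⟨q, hq.1, ?_⟩
  intro a b c h
  have hc : c = 0 := by
    by_contra hc
    exact hm (mem_of_comb L q.1 q.2 (m q) a b c hc h)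
  subst hc
  simp only [zero_smul, add_zero] at h
  obtain ⟨ha, hb, -⟩ := hq.2 a b 0 (by simpa using h)
  exact ⟨ha, hb, rfl⟩

end NSp
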