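import Pool.Agent.Helper97.NS.Defs
import Pool.Agent.Helper97.NS.J_gen_one

open Set Topology Filter

namespace NSp

theorem gen_aux_24113 {E : Type*} [NormedAddCommGroup E] [NormedSpace ℝ E]
    (hE : ¬ FiniteDimensional ℝ E) (m : E × E → E) (N : Set (E × E))
    (hfail : ∀ O ⊆ N, IsOpen O → O.Nonempty → ∀ L : Submodule ℝ E, FiniteDimensional ℝ L →
      ∃ q ∈ O, m q ∉ L ⊔ Submodule.span ℝ {q.1, q.2})
    {J : Type} (U : J → Set (E × E))
    (hU : ∀ j, IsOpen (U j) ∧ (U j).Nonempty ∧ U j ⊆ N) (s : Finset J) :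
    ∃ q : J → E × E, (∀ j, q j ∈ U j) ∧ ∀ g : J → Fin 3 → ℝ,
      ∑ j ∈ s, (g j 0 • (q j).1 + g j 1 • (q j).2 + g j 2 • m (q j)) = 0 →
        ∀ j ∈ s, g j 0 = 0 ∧ g j 1 = 0 ∧ g j 2 = 0 := by
  classical
  induction s using Finset.induction_on with
  | empty =>
    choose q hq using fun j => (hU j).2.1
    exact ⟨q, hq, fun g _ j hj => absurd hj (Finset.notMem_empty j)⟩
  | insert j0 s hj0 ih =>
    obtain ⟨q, hqU, hq⟩ := ih
    set A : Set E := ⋃ j ∈ s, {(q j).1, (q j).2, m (q j)} with hA
    have hAf : A.Finite := s.finite_toSet.biUnion fun j _ => Set.toFinite _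
    have hLf : FiniteDimensional ℝ (Submodule.span ℝ A) := FiniteDimensional.span_of_finite ℝ hAf
    obtain ⟨q0, hq0, hind⟩ := gen_one hE m N hfail (U j0) (hU j0).2.2 (hU j0).1 (hU j0).2.1
      (Submodule.span ℝ A) hLf
    refine ⟨Function.update q j0 q0, ?_, ?_⟩
    · intro j
      by_cases h : j = j0
      · subst h
        rw [Function.update_self]
        exact hq0
      · rw [Function.update_of_ne h]
        exact hqU j
    · intro g hg
      rw [Finset.sum_insert hj0, Function.update_self] at hg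
      have hs : ∑ j ∈ s, (g j 0 • (Function.update q j0 q0 j).1 +
          g j 1 • (Function.update q j0 q0 j).2 + g j 2 • m (Function.update q j0 q0 j)) =
          ∑ j ∈ s, (g j 0 • (q j).1 + g j 1 • (q j).2 + g j 2 • m (q j)) := by
        apply Finset.sum_congr rfl
        intro j hj
        have h : j ≠ j0 := by
          rintro rfl
          exact hj0 hj
        rw [Function.update_of_ne h]
      rw [hs] at hg
      have hmem : ∑ j ∈ s, (g j 0 • (q j).1 + g j 1 • (q j).2 + g j 2 • m (q j)) ∈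
          Submodule.span ℝ A := by
        apply Submodule.sum_mem
        intro j hj
        have h1 : (q j).1 ∈ Submodule.span ℝ A :=
          Submodule.subset_span (Set.mem_biUnion hj (by simp))
        have h2 : (q j).2 ∈ Submodule.span ℝ A :=
          Submodule.subset_span (Set.mem_biUnion hj (by simp))
        have h3 : m (q j) ∈ Submodule.span ℝ A :=
          Submodule.subset_span (Set.mem_biUnion hj (by simp))
        exact Submodule.add_mem _ (Submodule.add_mem _ (Submodule.smul_mem _ _ h1)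
          (Submodule.smul_mem _ _ h2)) (Submodule.smul_mem _ _ h3)
      have h0 : g j0 0 • q0.1 + g j0 1 • q0.2 + g j0 2 • m q0 ∈ Submodule.span ℝ A := by
        rw [eq_neg_of_add_eq_zero_left hg]
        exact Submodule.neg_mem _ hmem
      obtain ⟨e0, e1, e2⟩ := hind _ _ _ h0
      rw [e0, e1, e2, zero_smul, zero_smul, zero_smul, zero_add, zero_add, zero_add] at hg
      intro j hj
      rcases Finset.mem_insert.1 hj with rfl | hj
      · exact ⟨e0, e1, e2⟩
      · exact hq g hg j hj

theorem gen_finite_choice {E : Type*} [NormedAddCommGroup E] [NormedSpace ℝ E]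
    (hE : ¬ FiniteDimensional ℝ E) (m : E × E → E) (N : Set (E × E))
    (hfail : ∀ O ⊆ N, IsOpen O → O.Nonempty → ∀ L : Submodule ℝ E, FiniteDimensional ℝ L →
      ∃ q ∈ O, m q ∉ L ⊔ Submodule.span ℝ {q.1, q.2})
    {J : Type} [Finite J] (U : J → Set (E × E))
    (hU : ∀ j, IsOpen (U j) ∧ (U j).Nonempty ∧ U j ⊆ N) :
    ∃ q : J → E × E, (∀ j, q j ∈ U j) ∧
      LinearIndependent ℝ (fun a : J × Fin 3 => (![(q a.1).1, (q a.1).2, m (q a.1)] : Fin 3 → E) a.2) := by
  classical
  haveI : Fintype J := Fintype.ofFinite J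
  obtain ⟨q, hqU, hq⟩ := gen_aux_24113 hE m N hfail U hU Finset.univ
  refine ⟨q, hqU, ?_⟩
  rw [Fintype.linearIndependent_iff]
  intro g hg
  rw [Fintype.sum_prod_type] at hg
  have h1 := hq (fun j i => g (j, i)) (by
    rw [← hg]
    apply Finset.sum_congr rfl
    intro j _
    rw [Fin.sum_univ_three]
    rfl)
  rintro ⟨j, i⟩
  obtain ⟨e0, e1, e2⟩ := h1 j (Finset.mem_univ _)
  fin_cases i
  · exact e0
  · exact e1
  · exact e2

end NSp
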