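import Pool.Agent.Helper97.NS.Defs
import Pool.Agent.Helper97.NS.J_cantor
import Pool.Agent.Helper97.NS.J_gen_finite_choice

open Set Topology Filter

namespace NSp

theorem locspan_of_gen {B : Type*} [NormedAddCommGroup B] [NormedSpace ℝ B] [CompleteSpace B]
    (E : Submodule ℝ B) (hE : ¬ FiniteDimensional ℝ E) (hG : Gen E) : LocSpan E := by
  intro m hm N hN hNn
  by_contra hcon
  have hfail : ∀ O ⊆ N, IsOpen O → O.Nonempty → ∀ L : Submodule ℝ E, FiniteDimensional ℝ L →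
      ∃ q ∈ O, m q ∉ L ⊔ Submodule.span ℝ {q.1, q.2} := by
    intro O hO1 hO2 hO3 L hL
    by_contra hno
    push Not at hno
    exact hcon ⟨O, hO1, hO2, hO3, L, hL, hno⟩
  let V : E × E → Fin 3 → B := fun q => ![(q.1:B), (q.2:B), (m q:B)]
  have hV : Continuous V := by
    apply continuous_pi
    intro i
    fin_cases i
    · exact continuous_subtype_val.comp continuous_fst
    · exact continuous_subtype_val.comp continuous_snd
    · exact continuous_subtype_val.comp hm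
  obtain ⟨φ, hφ, hli, hcl⟩ := cantor V hV N hN hNn (by
    intro n U hU
    obtain ⟨q, hq, hl⟩ := gen_finite_choice hE m N hfail U hU
    refine ⟨q, hq, ?_⟩
    have hmap := hl.map' E.subtype E.ker_subtype
    have hfun : (fun a : (Fin n → Bool) × Fin 3 => V (q a.1) a.2) =
        E.subtype ∘ (fun a => (![(q a.1).1, (q a.1).2, m (q a.1)] : Fin 3 → E) a.2) := by
      funext a
      obtain ⟨s, i⟩ := a
      fin_cases i <;> rfl
    rw [hfun]
    exact hmap)
  obtain ⟨p, h0, h1, h2⟩ := hG φ hφ hli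
  obtain ⟨u, hu, hlim⟩ := mem_closure_iff_seq_limit.1 (hcl p)
  choose q hq using hu
  have hl : Tendsto (fun k => V (q k)) atTop (𝓝 (φ p)) := by
    have : (fun k => V (q k)) = u := funext hq
    rw [this]; exact hlim
  have c0 : Tendsto (fun k => ((q k).1 : B)) atTop (𝓝 (φ p 0)) := tendsto_pi_nhds.1 hl 0
  have c1 : Tendsto (fun k => ((q k).2 : B)) atTop (𝓝 (φ p 1)) := tendsto_pi_nhds.1 hl 1
  have c2 : Tendsto (fun k => (m (q k) : B)) atTop (𝓝 (φ p 2)) := tendsto_pi_nhds.1 hl 2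
  have t0 : Tendsto (fun k => (q k).1) atTop (𝓝 (⟨φ p 0, h0⟩ : E)) := tendsto_subtype_rng.2 c0
  have t1 : Tendsto (fun k => (q k).2) atTop (𝓝 (⟨φ p 1, h1⟩ : E)) := tendsto_subtype_rng.2 c1
  have t01 : Tendsto q atTop (𝓝 ((⟨φ p 0, h0⟩ : E), (⟨φ p 1, h1⟩ : E))) := t0.prodMk_nhds t1
  have tm := (hm.tendsto _).comp t01
  have tm' : Tendsto (fun k => (m (q k) : B)) atTop
      (𝓝 ((m ((⟨φ p 0, h0⟩ : E), (⟨φ p 1, h1⟩ : E)) : E) : B)) :=
    (continuous_subtype_val.tendsto _).comp tm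
  have heq := tendsto_nhds_unique c2 tm'
  apply h2
  rw [heq]
  exact (m _).2

end NSp
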