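import Pool.Agent.Helper97.NS.Defs

open Set Topology Filter

namespace NSp

theorem l1_tail_sum_le (y : L1) (s : Finset ℕ) : ∑ j ∈ s, |y j| ≤ ‖y‖ := by
  have h := lp.sum_rpow_le_norm_rpow (p := 1) (by norm_num) y s
  simpa using h

theorem l1_tail_zero (y : L1) : Tendsto (fun j => |y j|) atTop (𝓝 0) := by
  have h := (lp.memℓp y).summable (by norm_num)
  have h2 := h.tendsto_atTop_zero
  simpa using h2

theorem l1_tail_unif (L : Submodule ℝ L1) (hL : FiniteDimensional ℝ L) (ε : ℝ) (hε : 0 < ε) :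
    ∃ N : ℕ, ∀ j, N ≤ j → ∀ l ∈ L, |l j| ≤ ε * ‖l‖ := by
  let b := Module.finBasis ℝ L
  let C : Fin (Module.finrank ℝ L) → (L →L[ℝ] ℝ) := fun k => LinearMap.toContinuousLinearMap (b.coord k)
  have ht : Tendsto (fun j : ℕ => ∑ k, ‖C k‖ * |((b k : L) : L1) j|) atTop (𝓝 0) := by
    have h1 : Tendsto (fun j : ℕ => ∑ k, ‖C k‖ * |((b k : L) : L1) j|) atTop
        (𝓝 (∑ k : Fin (Module.finrank ℝ L), ‖C k‖ * 0)) :=
      tendsto_finsetSum _ fun k _ => (l1_tail_zero ((b k : L) : L1)).const_mul _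
    simpa using h1
  obtain ⟨N, hN⟩ := (ht.eventually (ge_mem_nhds hε)).exists_forall_of_atTop
  refine ⟨N, fun j hj l hl => ?_⟩
  have h2 : (⟨l, hl⟩ : L) = ∑ k, (b.coord k ⟨l, hl⟩) • b k := (b.sum_repr ⟨l, hl⟩).symm
  have h3 : l = ∑ k, (b.coord k ⟨l, hl⟩) • ((b k : L) : L1) := by
    have h7 := congrArg L.subtype h2
    rw [map_sum] at h7
    exact h7
  have h4 : l j = ∑ k, (b.coord k ⟨l, hl⟩) * ((b k : L) : L1) j := by
    conv_lhs => rw [h3]
    rw [lp.coeFn_sum, Finset.sum_apply]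
    rfl
  rw [h4]
  refine (Finset.abs_sum_le_sum_abs _ _).trans ?_
  have h5 : ∀ k ∈ (Finset.univ : Finset (Fin (Module.finrank ℝ L))),
      |(b.coord k ⟨l, hl⟩) * ((b k : L) : L1) j| ≤ (‖C k‖ * |((b k : L) : L1) j|) * ‖l‖ := by
    intro k _
    rw [abs_mul]
    have h6 : |b.coord k ⟨l, hl⟩| ≤ ‖C k‖ * ‖l‖ := (C k).le_opNorm ⟨l, hl⟩
    calc |b.coord k ⟨l, hl⟩| * |((b k : L) : L1) j|
        ≤ (‖C k‖ * ‖l‖) * |((b k : L) : L1) j| := mul_le_mul_of_nonneg_right h6 (abs_nonneg _)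
      _ = _ := by ring
  refine (Finset.sum_le_sum h5).trans ?_
  rw [← Finset.sum_mul]
  exact mul_le_mul_of_nonneg_right (hN j hj) (norm_nonneg _)

theorem l1_tail (L : Submodule ℝ L1) (hL : FiniteDimensional ℝ L) (n : ℕ) :
    ∃ a : Fin n → ℕ, ∀ s : Fin n → ℝ, (∀ i, s i = 1 ∨ s i = -1) → ∀ l ∈ L,
      (n : ℝ) ≤ 2 * ‖(∑ i, s i • (lp.single 1 (a i) (1 : ℝ) : L1)) - l‖ := by
  obtain ⟨N, hN⟩ := l1_tail_unif L hL (1 / (4 * ((n : ℝ) + 1))) (by positivity)
  refine ⟨fun i => N + i, fun s hs l hl => ?_⟩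
  have habs : ∀ i, |s i| = 1 := by
    intro i
    rcases hs i with h | h <;> rw [h] <;> simp
  set x : L1 := ∑ i, s i • (lp.single 1 (N + (i : ℕ)) (1 : ℝ) : L1) with hx
  have hinj : Function.Injective (fun i : Fin n => N + (i : ℕ)) := by
    intro i j h
    simp only at h
    exact Fin.ext (by omega)
  have hxi : ∀ i : Fin n, x (N + (i : ℕ)) = s i := by
    intro i
    rw [hx, lp.coeFn_sum, Finset.sum_apply, Finset.sum_eq_single i]
    · rw [lp.coeFn_smul, Pi.smul_apply, lp.single_apply_self]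
      simp
    · intro j _ hji
      rw [lp.coeFn_smul, Pi.smul_apply, lp.single_apply_ne]
      · simp
      · intro h
        exact hji (hinj h.symm)
    · exact fun h => absurd (Finset.mem_univ i) h
  have hxn : ‖x‖ ≤ n := by
    rw [hx]
    refine (norm_sum_le _ _).trans ?_
    have h1 : ∀ i ∈ (Finset.univ : Finset (Fin n)),
        ‖s i • (lp.single 1 (N + (i : ℕ)) (1 : ℝ) : L1)‖ ≤ 1 := by
      intro i _
      rw [norm_smul, Real.norm_eq_abs, habs, one_mul, lp.norm_single (by norm_num)]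
      simp
    refine (Finset.sum_le_sum h1).trans ?_
    simp
  have hlow : (n : ℝ) - ‖l‖ / 4 ≤ ‖x - l‖ := by
    have h1 := l1_tail_sum_le (x - l) (Finset.univ.map ⟨fun i : Fin n => N + (i : ℕ), hinj⟩)
    rw [Finset.sum_map] at h1
    refine le_trans ?_ h1
    have h2 : ∀ i ∈ (Finset.univ : Finset (Fin n)),
        1 - 1 / (4 * ((n : ℝ) + 1)) * ‖l‖ ≤ |(x - l) (N + (i : ℕ))| := by
      intro i _
      have h3 : (x - l) (N + (i : ℕ)) = s i - l (N + (i : ℕ)) := by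
        rw [lp.coeFn_sub, Pi.sub_apply, hxi]
      rw [h3]
      have h4 := abs_sub_abs_le_abs_sub (s i) (l (N + (i : ℕ)))
      rw [habs] at h4
      have h5 := hN (N + i) (Nat.le_add_right _ _) l hl
      linarith
    have h3 := Finset.sum_le_sum h2
    refine le_trans ?_ h3
    rw [Finset.sum_const, Finset.card_univ, Fintype.card_fin, nsmul_eq_mul]
    have h6 : (n : ℝ) * (1 / (4 * ((n : ℝ) + 1)) * ‖l‖) ≤ ‖l‖ / 4 := by
      have h7 : (n : ℝ) * (1 / (4 * ((n : ℝ) + 1)) * ‖l‖) = (n / (n + 1)) * (‖l‖ / 4) := by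
        field_simp
      rw [h7]
      apply mul_le_of_le_one_left (by positivity)
      rw [div_le_one (by positivity)]
      linarith
    linarith
  have hup : ‖l‖ - n ≤ ‖x - l‖ := by
    have h1 := norm_sub_norm_le l x
    rw [norm_sub_rev] at h1
    linarith
  linarith [norm_nonneg l]

end NSp
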