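import Pool.Agent.Helper97.NS.Defs

open Set Topology Filter

namespace NSp

theorem signs {F : Type*} [NormedAddCommGroup F] [InnerProductSpace ℝ F] {n : ℕ}
    (v : Fin n → F) :
    ∃ s : Fin n → ℝ, (∀ i, s i = 1 ∨ s i = -1) ∧ ‖∑ i, s i • v i‖ ^ 2 ≤ ∑ i, ‖v i‖ ^ 2 := by
  induction n with
  | zero => exact ⟨fun _ => 1, fun _ => Or.inl rfl, by simp⟩
  | succ n ih =>
    obtain ⟨s', hs', hb⟩ := ih (fun i => v i.castSucc)
    set x : F := ∑ i : Fin n, s' i • v i.castSucc with hx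
    have key : ∃ c : ℝ, (c = 1 ∨ c = -1) ∧ c * inner ℝ x (v (Fin.last n)) ≤ 0 := by
      rcases le_total (inner ℝ x (v (Fin.last n))) 0 with h | h
      · exact ⟨1, Or.inl rfl, by linarith⟩
      · exact ⟨-1, Or.inr rfl, by linarith⟩
    obtain ⟨c, hc, hc2⟩ := key
    refine ⟨Fin.snoc s' c, ?_, ?_⟩
    · intro i
      refine Fin.lastCases ?_ (fun j => ?_) i
      · simpa using hc
      · simpa using hs' j
    · rw [Fin.sum_univ_castSucc, Fin.sum_univ_castSucc]
      simp only [Fin.snoc_castSucc, Fin.snoc_last]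
      rw [← hx, norm_add_sq_real, inner_smul_right, norm_smul]
      have h1 : ‖c‖ = 1 := by rcases hc with h | h <;> rw [h] <;> simp
      rw [h1, one_mul]
      linarith

end NSp
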