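import Pool.Agent.Helper97.NS.Defs

open Set Topology Filter

namespace NSp

theorem single_inf (E : Submodule ℝ L1) (h0 : ∀ i : ℕ, (lp.single 1 i (1 : ℝ) : L1) ∈ E) :
    ¬ FiniteDimensional ℝ E := by
  intro hfd
  have hli : LinearIndependent ℝ (fun i : ℕ => (⟨lp.single 1 i (1 : ℝ), h0 i⟩ : E)) := by
    rw [linearIndependent_iff']
    intro s g hg i hi
    have h1 : (∑ k ∈ s, g k • (lp.single 1 k (1 : ℝ) : L1)) = 0 := by
      have := congrArg (fun v : E => (v : L1)) hg
      simpa using this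
    have h2 : ((∑ k ∈ s, g k • (lp.single 1 k (1 : ℝ) : L1) : L1) : ∀ _ : ℕ, ℝ) i = 0 := by
      rw [h1]; rfl
    rw [lp.coeFn_sum, Finset.sum_apply] at h2
    rw [Finset.sum_eq_single i] at h2
    · simpa using h2
    · intro k _ hk
      simp [lp.coeFn_smul, lp.coeFn_single, Pi.single_apply, hk.symm]
    · intro h; exact absurd hi h
  have hf := hli.finite
  exact not_finite ℕ


end NSp
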