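import Pool.Agent.Helper97.NS.Defs

open Set Topology Filter

namespace NSp

theorem single_norm (i : ℕ) : ‖(lp.single 1 i (1 : ℝ) : L1)‖ = 1 := by
  have h := lp.norm_single (E := fun _ : ℕ => ℝ) (p := 1) (by norm_num) i (1 : ℝ)
  rw [norm_one] at h
  exact h

end NSp
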