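import Pool.Agent.Helper97.NS.Defs
import Pool.Agent.Helper97.NS.J_almost_linear
import Pool.Agent.Helper97.NS.J_bdd_preimage
import Pool.Agent.Helper97.NS.J_signs
import Pool.Agent.Helper97.NS.J_l1_tail
import Pool.Agent.Helper97.NS.J_single_norm
import Pool.Agent.Helper97.NS.J_single_inf

open Set Topology Filter

namespace NSp

theorem no_homeo (E : Submodule ℝ L1) (h0 : ∀ i : ℕ, (lp.single 1 i (1 : ℝ) : L1) ∈ E)
    (hL : LocSpan E) {F : Type*} [NormedAddCommGroup F] [InnerProductSpace ℝ F] (f : F ≃ₜ E) :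
    False := by
  obtain ⟨L, u₀, r, M, C, ρ, S, hLf, hr, hS, h⟩ := almost_linear (single_inf E h0) hL f
  obtain ⟨K, hK⟩ := bdd_preimage f L hLf u₀ r M C hr ρ S hS h
  obtain ⟨n, hn⟩ := exists_nat_gt (4 * C ^ 2 * K ^ 2)
  have hn0 : (0 : ℝ) < n := lt_of_le_of_lt (by positivity) hn
  obtain ⟨a, ha⟩ := l1_tail (L.map E.subtype) inferInstance n
  obtain ⟨y, hy⟩ : ∃ y : Fin n → E, ∀ i, (y i : L1) = (lp.single 1 (a i) (1 : ℝ) : L1) :=
    ⟨fun i => ⟨_, h0 (a i)⟩, fun i => rfl⟩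
  have hyn : ∀ i, ‖y i‖ = 1 := by
    intro i
    rw [Submodule.coe_norm, hy, single_norm]
  choose v hv1 hv2 using fun i => hK (y i)
  obtain ⟨s, hs, hsum⟩ := signs v
  obtain ⟨z, hz1, hz2⟩ := hS (∑ i, s i • v i)
  have hSx : S (∑ i, s i • v i) = L.mkQ (∑ i, s i • y i) := by
    rw [map_sum, map_sum]
    apply Finset.sum_congr rfl
    intro i _
    rw [map_smul, map_smul, hv1]
  have hmem : (∑ i, s i • y i) - z ∈ L := by
    rw [← Submodule.Quotient.mk_eq_zero, ← Submodule.mkQ_apply, map_sub, hz1, hSx, sub_self]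
  have h1 := ha s hs (E.subtype ((∑ i, s i • y i) - z)) (Submodule.mem_map_of_mem hmem)
  have h2 : (∑ i, s i • (lp.single 1 (a i) (1 : ℝ) : L1)) - E.subtype ((∑ i, s i • y i) - z) = (z : L1) := by
    rw [map_sub, map_sum]
    have : ∑ i, E.subtype (s i • y i) = ∑ i, s i • (lp.single 1 (a i) (1 : ℝ) : L1) := by
      apply Finset.sum_congr rfl
      intro i _
      rw [map_smul, Submodule.subtype_apply, hy]
    rw [this, sub_sub_cancel]
    rfl
  rw [h2] at h1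
  have h3 : ‖(z : L1)‖ = ‖z‖ := rfl
  rw [h3] at h1
  have h4 : (n : ℝ) ≤ 2 * (C * ‖∑ i, s i • v i‖) := h1.trans (by linarith)
  have h5 : (n : ℝ) ^ 2 ≤ (2 * (C * ‖∑ i, s i • v i‖)) ^ 2 := pow_le_pow_left₀ hn0.le h4 2
  have h6 : ∑ i, ‖v i‖ ^ 2 ≤ n * K ^ 2 := by
    have : ∀ i ∈ (Finset.univ : Finset (Fin n)), ‖v i‖ ^ 2 ≤ K ^ 2 := by
      intro i _
      apply pow_le_pow_left₀ (norm_nonneg _)
      have := hv2 i
      rwa [hyn, mul_one] at this
    refine (Finset.sum_le_sum this).trans ?_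
    rw [Finset.sum_const, Finset.card_univ, Fintype.card_fin, nsmul_eq_mul]
  have h7 : (2 * (C * ‖∑ i, s i • v i‖)) ^ 2 = 4 * C ^ 2 * ‖∑ i, s i • v i‖ ^ 2 := by ring
  rw [h7] at h5
  have h8 : 4 * C ^ 2 * ‖∑ i, s i • v i‖ ^ 2 ≤ 4 * C ^ 2 * (n * K ^ 2) :=
    mul_le_mul_of_nonneg_left (hsum.trans h6) (by positivity)
  have h9 : (n : ℝ) * n ≤ (4 * C ^ 2 * K ^ 2) * n := by
    have : (n : ℝ) ^ 2 = n * n := sq _
    linarith
  have := le_of_mul_le_mul_right h9 hn0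
  linarith


end NSp
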