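import Pool.Agent.Helper97.NS.Defs

open Set Topology Filter

namespace NSp

theorem single_rank : Module.rank ℝ (Submodule.span ℝ
    (range fun i : ℕ => (lp.single 1 i (1 : ℝ) : L1))) < Cardinal.continuum := by
  refine lt_of_le_of_lt (rank_span_le _) (lt_of_le_of_lt ?_ Cardinal.aleph0_lt_continuum)
  exact (Set.countable_range _).le_aleph0

end NSp
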