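import Pool.Agent.Helper97.NS.Defs
import Pool.Agent.Helper97.NS.J_card_l1
import Pool.Agent.Helper97.NS.J_exists_gen
import Pool.Agent.Helper97.NS.J_locspan_of_gen
import Pool.Agent.Helper97.NS.J_single_inf
import Pool.Agent.Helper97.NS.J_single_rank
import Pool.Agent.Helper97.NS.J_no_homeo

open Set Topology Filter

namespace NSp

theorem exists_space : ∃ E : Submodule ℝ L1, ∀ (F : Type*) [NormedAddCommGroup F]
    [InnerProductSpace ℝ F], IsEmpty (F ≃ₜ E) := by
  obtain ⟨E, hE, hG⟩ := exists_gen card_l1 _ single_rank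
  have h0 : ∀ i : ℕ, (lp.single 1 i (1 : ℝ) : L1) ∈ E := fun i =>
    hE (Submodule.subset_span ⟨i, rfl⟩)
  have hL : LocSpan E := locspan_of_gen E (single_inf E h0) hG
  exact ⟨E, fun F _ _ => ⟨fun f => no_homeo E h0 hL f⟩⟩
end NSp
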